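import Pool.Agent.H508.R.A7

/-!
# Matrices over the Eisenstein integers
-/

set_option autoImplicit false
set_option linter.unusedSectionVars false
set_option linter.style.haveILetI false

open Complex NumberField IsDedekindDomain

namespace Pool.Agent.H508.R

open Pool.Agent.K7.H70.EQ (HH avg frob_conj avg_pow avg_fin det_exp)
open Pool.Agent.K7.H70.SE (GoodG und0_tower exists_above ps rt rd RdOk lt rt_a rt_spec rt_lt)
open Pool.Agent.Y696 (nK und0 card_nm aV_inert eis om bel mem_bel deg_base exists_prim psi_prim E0)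
open Pool.Agent.Y688 (RR wR w wR_coe HL)
open Pool.Agent.W189.NF (aV eV)
open Pool.Agent.K7.H70.AW
open Pool.Agent.K7.H70.TW (Fam)
open Pool.Agent.K7.H65.FP (Semi opP opP_pos opP_neg trace_opP_pos trace_opP_neg fx fx_one fx_mul
  z_case z_ne fx_inertia fx_frob toC' toC'_apply toC_add toC_mul galE galE_hpos galE_hneg)
open Pool.Agent.Y692.QS (toC Ei nr toC_normSq)
open IntermediateField (fixedField subgroupEquivAlgEquiv)
open Pool.Agent.H508.D
open scoped Classical Matrix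

section
variable {G : Type} [Group G] {n : ℕ} {h : G → Prop}

/-- the operators of a family of matrices -/
noncomputable def tl (A : G → Matrix (Fin n) (Fin n) ℂ) (σ : G) : Module.End ℂ (Fin n → ℂ) :=
  Matrix.toLin' (A σ)ᵀ

lemma tl_trace (A : G → Matrix (Fin n) (Fin n) ℂ) (σ : G) :
    LinearMap.trace ℂ (Fin n → ℂ) (tl A σ) = (A σ).trace := by
  unfold tl
  rw [Matrix.trace_toLin'_eq, Matrix.trace_transpose]

lemma tl_det (A : G → Matrix (Fin n) (Fin n) ℂ) (σ : G) : LinearMap.det (tl A σ) = (A σ).det := by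
  unfold tl
  rw [LinearMap.det_toLin', Matrix.det_transpose]

/-- two semilinear families of matrices -/
structure SemiM (h : G → Prop) (A B : G → Matrix (Fin n) (Fin n) ℂ) : Prop where
  h1 : h 1
  hm : ∀ σ τ, h (σ * τ) ↔ (h σ ↔ h τ)
  a1 : A 1 = 1
  b1 : B 1 = 1
  am : ∀ σ τ, A (σ * τ) = A σ * (if h σ then A τ else B τ)
  bm : ∀ σ τ, B (σ * τ) = B σ * (if h σ then B τ else A τ)

lemma SemiM.semi {A B : G → Matrix (Fin n) (Fin n) ℂ} (S : SemiM h A B) : Semi h (tl A) (tl B) where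
  h1 := S.h1
  hm := S.hm
  a1 := by unfold tl; rw [S.a1, Matrix.transpose_one, Matrix.toLin'_one]; rfl
  b1 := by unfold tl; rw [S.b1, Matrix.transpose_one, Matrix.toLin'_one]; rfl
  am σ τ := by
    unfold tl
    rw [S.am, Matrix.transpose_mul, Matrix.toLin'_mul]
    split_ifs <;> rfl
  bm σ τ := by
    unfold tl
    rw [S.bm, Matrix.transpose_mul, Matrix.toLin'_mul]
    split_ifs <;> rfl

/-- twisting by a character -/
lemma SemiM.twist {A B : G → Matrix (Fin n) (Fin n) ℂ} (S : SemiM h A B) (ψ : G →* ℂˣ) :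
    SemiM h (fun σ => ((ψ σ : ℂˣ) : ℂ) • A σ) (fun σ => ((ψ σ : ℂˣ) : ℂ) • B σ) where
  h1 := S.h1
  hm := S.hm
  a1 := by rw [map_one, Units.val_one, one_smul, S.a1]
  b1 := by rw [map_one, Units.val_one, one_smul, S.b1]
  am σ τ := by
    rw [S.am, map_mul, Units.val_mul]
    split_ifs
    · rw [Matrix.smul_mul, Matrix.mul_smul, smul_smul]
    · rw [Matrix.smul_mul, Matrix.mul_smul, smul_smul]
  bm σ τ := by
    rw [S.bm, map_mul, Units.val_mul]
    split_ifs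
    · rw [Matrix.smul_mul, Matrix.mul_smul, smul_smul]
    · rw [Matrix.smul_mul, Matrix.mul_smul, smul_smul]

end

section
variable {K F : Type} [Field K] [NumberField K] [Field F] [NumberField F] [Algebra K F]
  {z : 𝓞 F} {n : ℕ}

/-- a cocycle with values in the matrices over the Eisenstein integers -/
structure Coc (z : 𝓞 F) (c : Gal(F/K) → Matrix (Fin n) (Fin n) Ei) : Prop where
  one : c 1 = 1
  mul : ∀ σ τ, c (σ * τ) = c σ * (c τ).map (galE z σ)

lemma Coc.semiM (hz : z * z = -1 - z) {c : Gal(F/K) → Matrix (Fin n) (Fin n) Ei} (hc : Coc z c) :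
    SemiM (fx z) (fun σ => (c σ).map toC) (fun σ => (c σ).map toC') where
  h1 := fx_one
  hm := fx_mul hz
  a1 := by rw [hc.one, Matrix.map_one _ (map_zero _) (map_one _)]
  b1 := by rw [hc.one, Matrix.map_one _ (map_zero _) (map_one _)]
  am σ τ := by
    rw [hc.mul, Matrix.map_mul, Matrix.map_map]
    congr 1
    split_ifs with h
    · ext i j
      exact (galE_hpos σ h _).1
    · ext i j
      exact (galE_hneg σ h _).1
  bm σ τ := by
    rw [hc.mul, Matrix.map_mul, Matrix.map_map]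
    congr 1
    split_ifs with h
    · ext i j
      exact (galE_hpos σ h _).2
    · ext i j
      exact (galE_hneg σ h _).2

/-- a Frobenius element -/
def Frb (v : HeightOneSpectrum (𝓞 K)) (w : HeightOneSpectrum (𝓞 F)) (σ : Gal(F/K)) : Prop :=
  ∀ x : 𝓞 F, σ • x - x ^ nK v ∈ w.asIdeal

/-- the average over the Frobenius elements -/
noncomputable def mn (A : Gal(F/K) → Matrix (Fin n) (Fin n) ℂ) (v : HeightOneSpectrum (𝓞 K))
    (w : HeightOneSpectrum (𝓞 F)) : Matrix (Fin n) (Fin n) ℂ :=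
  ((Nat.card {σ : Gal(F/K) // Frb v w σ} : ℂ))⁻¹ • ∑ σ : {σ : Gal(F/K) // Frb v w σ}, A σ

lemma mn_eq (A : Gal(F/K) → Matrix (Fin n) (Fin n) ℂ) {v : HeightOneSpectrum (𝓞 K)}
    {w : HeightOneSpectrum (𝓞 F)} {φ : Gal(F/K)} (hφ : ∀ x : 𝓞 F, φ • x - x ^ nK v ∈ w.asIdeal) :
    oav (tl A) (w.asIdeal.inertia Gal(F/K)) φ = Matrix.toLin' (mn A v w)ᵀ := by
  have hp := w.isPrime
  have h1 := Pool.Agent.K7.H65.FP.sum_frob' (nK_ne v) hφ (tl A)
  unfold oav
  rw [← h1]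
  unfold mn
  rw [Matrix.transpose_smul, Matrix.transpose_sum, map_smul, map_sum]
  rfl

/-- the local factor -/
noncomputable def fm (A B : Gal(F/K) → Matrix (Fin n) (Fin n) ℂ) (x : Ei)
    (v : HeightOneSpectrum (𝓞 K)) (w : HeightOneSpectrum (𝓞 F)) (s : ℂ) : ℂ :=
  if (3 : 𝓞 K) ∈ v.asIdeal then 1 else if nK v % 3 = 1 then
    (Matrix.det (1 - (toC x * (nK v : ℂ) ^ (-s)) • mn A v w) *
      Matrix.det (1 - (toC' x * (nK v : ℂ) ^ (-s)) • mn B v w))⁻¹ else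
    (Matrix.det (1 + ((nK v : ℂ) ^ (1 - 2 * s)) • (mn A v w * mn B v w)))⁻¹

lemma det_lin1 (N : Matrix (Fin n) (Fin n) ℂ) (t : ℂ) :
    LinearMap.det ((1 : Module.End ℂ (Fin n → ℂ)) - t • Matrix.toLin' Nᵀ) =
      Matrix.det (1 - t • N) := by
  have h1 : (1 : Module.End ℂ (Fin n → ℂ)) - t • Matrix.toLin' Nᵀ =
      Matrix.toLin' (1 - t • N)ᵀ := by
    rw [Matrix.transpose_sub, Matrix.transpose_one, Matrix.transpose_smul, map_sub, map_smul,
      Matrix.toLin'_one]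
    rfl
  rw [h1, LinearMap.det_toLin', Matrix.det_transpose]

lemma det_lin2 (N N' : Matrix (Fin n) (Fin n) ℂ) (t : ℂ) :
    LinearMap.det ((1 : Module.End ℂ (Fin n → ℂ)) + t • (Matrix.toLin' Nᵀ * Matrix.toLin' N'ᵀ)) =
      Matrix.det (1 + t • (N * N')) := by
  have h1 : (1 : Module.End ℂ (Fin n → ℂ)) + t • (Matrix.toLin' Nᵀ * Matrix.toLin' N'ᵀ) =
      Matrix.toLin' (1 + t • (N' * N))ᵀ := by
    rw [Matrix.transpose_add, Matrix.transpose_one, Matrix.transpose_smul, Matrix.transpose_mul,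
      map_add, map_smul, Matrix.toLin'_one, Matrix.toLin'_mul]
    rfl
  rw [h1, LinearMap.det_toLin', Matrix.det_transpose, ← Matrix.smul_mul, Matrix.det_one_add_mul_comm,
    Matrix.mul_smul]

lemma fac_fm (A B : Gal(F/K) → Matrix (Fin n) (Fin n) ℂ) (x : Ei) {v : HeightOneSpectrum (𝓞 K)}
    {w : HeightOneSpectrum (𝓞 F)} {φ : Gal(F/K)} (hφ : ∀ x : 𝓞 F, φ • x - x ^ nK v ∈ w.asIdeal)
    (s : ℂ) : fac (tl A) (tl B) x v w φ s = fm A B x v w s := by
  unfold fac fm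
  rw [mn_eq A hφ, mn_eq B hφ, det_lin1, det_lin1, det_lin2]

lemma cpow_conj_nat (q : ℕ) (s : ℂ) :
    (starRingEnd ℂ) ((q : ℂ) ^ s) = (q : ℂ) ^ ((starRingEnd ℂ) s) := by
  have h2 := Complex.cpow_conj (q : ℂ) s (by
    rw [Complex.natCast_arg]
    exact Real.pi_pos.ne)
  rw [Complex.conj_natCast] at h2
  exact h2.symm

lemma mn_conj (A : Gal(F/K) → Matrix (Fin n) (Fin n) ℂ) (v : HeightOneSpectrum (𝓞 K))
    (w : HeightOneSpectrum (𝓞 F)) :
    mn (fun σ => (A σ).map (starRingEnd ℂ)) v w = (mn A v w).map (starRingEnd ℂ) := by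
  unfold mn
  ext i j
  rw [Matrix.map_apply, Matrix.smul_apply, Matrix.smul_apply, Matrix.sum_apply, Matrix.sum_apply,
    smul_eq_mul, smul_eq_mul, map_mul, map_inv₀, Complex.conj_natCast, map_sum]
  rfl

lemma det_map_conj (N : Matrix (Fin n) (Fin n) ℂ) :
    (N.map (starRingEnd ℂ)).det = (starRingEnd ℂ) N.det :=
  ((starRingEnd ℂ).map_det N).symm

/-- the local factors of the conjugate families -/
lemma fm_conj (A B : Gal(F/K) → Matrix (Fin n) (Fin n) ℂ) (x : Ei) (v : HeightOneSpectrum (𝓞 K))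
    (w : HeightOneSpectrum (𝓞 F)) (s : ℂ) :
    (starRingEnd ℂ) (fm A B x v w s) = fm (fun σ => (B σ).map (starRingEnd ℂ))
      (fun σ => (A σ).map (starRingEnd ℂ)) x v w ((starRingEnd ℂ) s) := by
  unfold fm
  have e1 : ∀ (t : ℂ) (N : Matrix (Fin n) (Fin n) ℂ), (starRingEnd ℂ) (Matrix.det (1 - t • N)) =
      Matrix.det (1 - (starRingEnd ℂ) t • N.map (starRingEnd ℂ)) := fun t N => by
    rw [← det_map_conj]
    congr 1
    ext i j
    rw [Matrix.map_apply, Matrix.sub_apply, Matrix.sub_apply, map_sub, Matrix.smul_apply,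
      Matrix.smul_apply, Matrix.map_apply, smul_eq_mul, smul_eq_mul, map_mul, Matrix.one_apply]
    split_ifs
    · rw [map_one]
    · rw [map_zero]
  have e2 : ∀ (t : ℂ) (N : Matrix (Fin n) (Fin n) ℂ), (starRingEnd ℂ) (Matrix.det (1 + t • N)) =
      Matrix.det (1 + (starRingEnd ℂ) t • N.map (starRingEnd ℂ)) := fun t N => by
    rw [← det_map_conj]
    congr 1
    ext i j
    rw [Matrix.map_apply, Matrix.add_apply, Matrix.add_apply, map_add, Matrix.smul_apply,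
      Matrix.smul_apply, Matrix.map_apply, smul_eq_mul, smul_eq_mul, map_mul, Matrix.one_apply]
    split_ifs
    · rw [map_one]
    · rw [map_zero]
  split_ifs
  · exact map_one _
  · rw [map_inv₀, map_mul, e1, e1, ← mn_conj, ← mn_conj, map_mul, map_mul, cpow_conj_nat, map_neg,
      toC'_apply, Complex.conj_conj, mul_comm (Matrix.det _)]
  · rw [map_inv₀, e2, Matrix.map_mul, ← mn_conj, ← mn_conj, cpow_conj_nat, map_sub, map_mul, map_one,
      map_ofNat, ← Matrix.smul_mul, Matrix.det_one_add_mul_comm, Matrix.mul_smul]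

end

section
variable {F L : Type} [Field F] [NumberField F] [IsGalois ℚ F] [Field L] [NumberField L]
  [Algebra F L] {z : 𝓞 F} {n : ℕ} {A B : Gal(F/ℚ) → Matrix (Fin n) (Fin n) ℂ}
  {wo : HeightOneSpectrum (𝓞 ℚ) → HeightOneSpectrum (𝓞 F)}

/-- the value at one for a family of matrices -/
noncomputable def yt (ι : RR →+* 𝓞 (fixedField (CC z)))
    (wo : HeightOneSpectrum (𝓞 ℚ) → HeightOneSpectrum (𝓞 F))
    (A : Gal(F/ℚ) → Matrix (Fin n) (Fin n) ℂ) : ℂ := yv ι wo (fun g => (A g).trace)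

/-- the Frobenius data -/
structure Frd (z : 𝓞 F) (wo : HeightOneSpectrum (𝓞 ℚ) → HeightOneSpectrum (𝓞 F))
    (x : HeightOneSpectrum (𝓞 ℚ) → Ei) : Prop where
  sp : ∀ v, (3 : 𝓞 ℚ) ∉ v.asIdeal → nK v % 3 = 1 → nr (x v) = nK v ∧
    2 * (x v).re - (x v).im = aV (E0 ℚ) v ∧ ((x v).re : 𝓞 F) + (x v).im * z ∈ (wo v).asIdeal

theorem mat_main (hf : Fam L) (hr : Rays L) (hQ : GoodG ℚ) (hz : z * z = -1 - z)
    {ι : RR →+* 𝓞 (fixedField (CC z))}
    (hι : algebraMap (𝓞 (fixedField (CC z))) (𝓞 F) (ι wR) = -1 - z)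
    (hwo : ∀ v, und0 ℚ (wo v) = v) (S : SemiM (fx z) A B) {x : HeightOneSpectrum (𝓞 ℚ) → Ei}
    (hx : Frd z wo x) :
    ∃ Φ : ℂ → ℂ, MeromorphicOn Φ Set.univ ∧ AnalyticAt ℂ Φ 1 ∧
      (∀ s ∈ HH, HasProd (fun v => fm A B (x v) v (wo v) s) (Φ s)) ∧ Φ 1 ≠ 0 ∧
      Φ 1 = yt ι wo A := by
  choose φ hφ using fun v : HeightOneSpectrum (𝓞 ℚ) => exists_frob' (K := ℚ) (wo v)
  have hφ' : ∀ v, ∀ y : 𝓞 F, φ v • y - y ^ nK v ∈ (wo v).asIdeal := fun v y => by
    have := hφ v y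
    rwa [hwo] at this
  obtain ⟨Φ, h1, h2, h3, h4, h5⟩ := semi_main hf hr hQ hz hι hwo S.semi hx.sp hφ'
  refine ⟨Φ, h1, h2, fun s hs => ?_, h4, ?_⟩
  · refine (h3 s hs).congr_fun fun v => ?_
    exact (fac_fm A B (x v) (hφ' v) s).symm
  · rw [h5]
    unfold yt
    simp only [tl_trace]

theorem mat_eqv (hf : Fam L) (hr : Rays L) (hz : z * z = -1 - z)
    {ι : RR →+* 𝓞 (fixedField (CC z))}
    (hι : algebraMap (𝓞 (fixedField (CC z))) (𝓞 F) (ι wR) = -1 - z) (S : SemiM (fx z) A B)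
    {L' : PeriodPair} {Ω : ℂ} (hL : HL L' Ω) {σ : ℂ ≃+* ℂ} (hw : σ w = w) {e : F →+* ℂ}
    (he : e z = (starRingEnd ℂ) w) {g : Gal(F/ℚ)} (hg : ∀ y, e (g y) = σ (e y)) :
    yt ι wo (fun g => (A g).map σ) / Ω ^ n = σ (A g).det * σ (yt ι wo A / Ω ^ n) := by
  have h1 := semi_eqv (wo := wo) hf hr hz hι S.semi hL hw he hg
  rw [Module.finrank_fin_fun, tl_det] at h1
  simp only [tl_trace] at h1
  have h2 : ∀ g, ((A g).map σ).trace = σ (A g).trace := fun g => by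
    exact (AddMonoidHom.map_trace (σ : ℂ →+* ℂ) (A g)).symm
  unfold yt
  simp only [h2]
  exact h1

/-- identity at one -/
lemma eq_one {Φ Ψ : ℂ → ℂ} (h1 : MeromorphicOn Φ Set.univ) (h2 : AnalyticAt ℂ Φ 1)
    (h3 : MeromorphicOn Ψ Set.univ) (h4 : AnalyticAt ℂ Ψ 1) (h : ∀ s ∈ HH, Φ s = Ψ s)
    (Λ : ℂ → ℂ) (hΛ : ∀ s ∈ HH, Φ s = Complex.exp (Λ s)) : Φ 1 = Ψ 1 := by
  have e1 : Ct Φ Λ := ⟨h1, h2, hΛ⟩
  have e2 : Ct Ψ Λ := ⟨h3, h4, fun s hs => by rw [← h s hs, hΛ s hs]⟩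
  rw [← vv_eq e1, vv_eq e2]

theorem mat_conj (hf : Fam L) (hr : Rays L) (hQ : GoodG ℚ) (hz : z * z = -1 - z)
    {ι : RR →+* 𝓞 (fixedField (CC z))}
    (hι : algebraMap (𝓞 (fixedField (CC z))) (𝓞 F) (ι wR) = -1 - z)
    (hwo : ∀ v, und0 ℚ (wo v) = v) (S : SemiM (fx z) A B)
    {A' B' : Gal(F/ℚ) → Matrix (Fin n) (Fin n) ℂ} (S' : SemiM (fx z) A' B')
    (hA : ∀ σ, A' σ = (B σ).map (starRingEnd ℂ)) (hB : ∀ σ, B' σ = (A σ).map (starRingEnd ℂ))
    {x : HeightOneSpectrum (𝓞 ℚ) → Ei} (hx : Frd z wo x) :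
    (starRingEnd ℂ) (yt ι wo A) = yt ι wo A' := by
  obtain ⟨Φ, h1, h2, h3, -, h5⟩ := mat_main hf hr hQ hz hι hwo S hx
  obtain ⟨Ψ, g1, g2, g3, -, g5⟩ := mat_main hf hr hQ hz hι hwo S' hx
  have hmem : ∀ s, s ∈ HH → (starRingEnd ℂ) s ∈ HH := fun s hs => hs
  have key : ∀ s ∈ HH, (starRingEnd ℂ) (Φ ((starRingEnd ℂ) s)) = Ψ s := by
    intro s hs
    have e1 := (h3 _ (hmem s hs)).map (starRingEnd ℂ) Complex.continuous_conj
    refine e1.unique ((g3 s hs).congr_fun fun v => ?_)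
    show (starRingEnd ℂ) (fm A B (x v) v (wo v) ((starRingEnd ℂ) s)) = _
    rw [fm_conj, Complex.conj_conj, ← funext hA, ← funext hB]
  have hQ' : GoodG ℚ := hQ
  obtain ⟨τ, hτ⟩ := exists_not hz
  let _ : Algebra (fixedField (CC z)) L :=
    ((algebraMap F L).comp (algebraMap (fixedField (CC z)) F)).toAlgebra
  obtain ⟨⟨R, hR, -⟩, -⟩ := main_K hf hr ι (deg_CC hz) (wx_und (wo := wo)) (rh S.semi)
  obtain ⟨⟨R', hR', -⟩, -⟩ := main_K hf hr ι (deg_CC hz) (wx_und (wo := wo)) (rh S'.semi)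
  -- both functions are continuations of the same exponential
  have hθ' : (fun g => LinearMap.trace ℂ (Fin n → ℂ) (rh S'.semi g⁻¹)) =
      dn (CC z) fun g => (A' g).trace := by
    funext g
    rw [rh_inv, tl_trace]
    rfl
  have hθ : (fun g => LinearMap.trace ℂ (Fin n → ℂ) (rh S.semi g⁻¹)) =
      dn (CC z) fun g => (A g).trace := by
    funext g
    rw [rh_inv, tl_trace]
    rfl
  rw [hθ] at hR
  rw [hθ'] at hR'
  have hM : GoodG (fixedField (CC z)) := hf.good _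
  choose φ hφ using fun v : HeightOneSpectrum (𝓞 ℚ) => exists_frob' (K := ℚ) (wo v)
  have hφ' : ∀ v, ∀ y : 𝓞 F, φ v • y - y ^ nK v ∈ (wo v).asIdeal := fun v y => by
    have := hφ v y
    rwa [hwo] at this
  have hexp' : ∀ s ∈ HH, Ψ s = Complex.exp (LL (fixedField (CC z)) (PW ι) (wx (CC z) wo)
      (dn (CC z) fun g => (A' g).trace) s) := by
    intro s hs
    have e1 := euler_semi hz (fun σ => mem_CC σ) hτ hwo S'.semi hι (iota_surj ι (deg_CC hz)) hQ hM
      nK_rat hx.sp hφ' hs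
    simp only [tl_trace] at e1
    refine (g3 s hs).unique (e1.congr_fun fun v => ?_)
    exact (fac_fm A' B' (x v) (hφ' v) s).symm
  have hexp : ∀ s ∈ HH, Φ s = Complex.exp (LL (fixedField (CC z)) (PW ι) (wx (CC z) wo)
      (dn (CC z) fun g => (A g).trace) s) := by
    intro s hs
    have e1 := euler_semi hz (fun σ => mem_CC σ) hτ hwo S.semi hι (iota_surj ι (deg_CC hz)) hQ hM
      nK_rat hx.sp hφ' hs
    simp only [tl_trace] at e1
    refine (h3 s hs).unique (e1.congr_fun fun v => ?_)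
    exact (fac_fm A B (x v) (hφ' v) s).symm
  have c1 : Ct Φ (LL (fixedField (CC z)) (PW ι) (wx (CC z) wo) (dn (CC z) fun g => (A g).trace)) :=
    ⟨h1, h2, hexp⟩
  have c2 := c1.conj
  have c3 : Ct (fun s => (starRingEnd ℂ) (Φ ((starRingEnd ℂ) s)))
      (LL (fixedField (CC z)) (PW ι) (wx (CC z) wo) (dn (CC z) fun g => (A' g).trace)) :=
    ⟨c2.mero, c2.an, fun s hs => by rw [key s hs, hexp' s hs]⟩
  have c4 : Ct Ψ (LL (fixedField (CC z)) (PW ι) (wx (CC z) wo) (dn (CC z) fun g => (A' g).trace)) :=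
    ⟨g1, g2, hexp'⟩
  have c5 := vv_eq c3
  rw [vv_eq c4, map_one] at c5
  rw [← h5, ← g5, c5]

end

end Pool.Agent.H508.R
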