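import Pool.Graph.R_pool_sql_team_seeded_35f281b4.K7.H65.FP.I
import Pool.Graph.R_pool_sql_team_seeded_35f281b4.K7.H65.FP.L
import Pool.Agent.H508.D.Q3

/-!
# Two conjugate families of operators: the local terms over the quadratic field
-/

set_option autoImplicit false
set_option linter.unusedSectionVars false
set_option linter.style.haveILetI false

open Complex NumberField IsDedekindDomain

namespace Pool.Agent.H508.R

open Pool.Agent.K7.H70.EQ (HH avg frob_conj avg_pow avg_fin det_exp)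
open Pool.Agent.K7.H70.SE (GoodG und0_tower exists_above ps rt rd RdOk lt)
open Pool.Agent.Y696 (nK und0 card_nm)
open Pool.Agent.Y688 (RR wR w)
open Pool.Agent.K7.H70.AW
open Pool.Agent.K7.H65.FP (Semi opP opP_pos opP_neg trace_opP_pos trace_opP_neg fx fx_one fx_mul
  z_case z_ne fx_inertia fx_frob toC' toC'_apply toC_add toC_mul)
open Pool.Agent.Y692.QS (toC Ei nr)
open IntermediateField (fixedField subgroupEquivAlgEquiv)
open Pool.Agent.H508.D
open scoped Classical

section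
variable {G : Type} [Group G] [Fintype G] {W : Type} [AddCommGroup W] [Module ℂ W]
  [FiniteDimensional ℂ W] {h : G → Prop} {a b : G → Module.End ℂ W}

lemma semi_inv (S : Semi h a b) {σ : G} : h σ⁻¹ ↔ h σ := by
  have h1 := S.hm σ⁻¹ σ
  rw [inv_mul_cancel] at h1
  exact h1.1 S.h1

lemma trace_conj_pos (S : Semi h a b) {σ g : G} (hσ : h σ) (hg : h g) :
    LinearMap.trace ℂ W (a (σ⁻¹ * g * σ)) = LinearMap.trace ℂ W (a g) := by
  have h1 : h σ⁻¹ := (semi_inv S).2 hσ
  rw [mul_assoc, S.am, if_pos h1, S.am, if_pos hg]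
  have h2 : a σ⁻¹ * a σ = 1 := by
    have h3 := S.am σ σ⁻¹
    rw [mul_inv_cancel, S.a1, if_pos hσ] at h3
    exact h3.symm
  rw [LinearMap.trace_mul_comm, ← mul_assoc, h2, one_mul]

lemma trace_conj_neg (S : Semi h a b) {σ g : G} (hσ : ¬ h σ) (hg : h g) :
    LinearMap.trace ℂ W (a (σ⁻¹ * g * σ)) = LinearMap.trace ℂ W (b g) := by
  have h1 : ¬ h σ⁻¹ := fun h2 => hσ ((semi_inv S).1 h2)
  rw [mul_assoc, S.am, if_neg h1, S.bm, if_pos hg]
  have h2 : a σ⁻¹ * b σ = 1 := by
    have h3 := S.bm σ σ⁻¹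
    rw [mul_inv_cancel, S.b1, if_neg hσ] at h3
    exact h3.symm
  rw [LinearMap.trace_mul_comm, ← mul_assoc, h2, one_mul]

lemma card_compl (S : Semi h a b) {C : Subgroup G} (hC : ∀ σ, σ ∈ C ↔ h σ) {τ : G} (hτ : ¬ h τ) :
    (Finset.univ.filter fun σ : G => σ ∈ C).card = Nat.card C ∧
      (Finset.univ.filter fun σ : G => ¬ σ ∈ C).card = Nat.card C := by
  have h1 : (Finset.univ.filter fun σ : G => σ ∈ C).card = Nat.card C := by
    rw [Nat.card_eq_fintype_card, Fintype.card_subtype]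
  refine ⟨h1, ?_⟩
  rw [← h1]
  refine Finset.card_bij (fun σ _ => τ * σ) ?_ ?_ ?_
  · intro σ hσ
    rw [Finset.mem_filter] at hσ ⊢
    refine ⟨Finset.mem_univ _, ?_⟩
    rw [hC, S.hm]
    have := hσ.2
    rw [hC] at this
    exact iff_of_false hτ this
  · intro σ _ σ' _ he
    exact mul_left_cancel he
  · intro σ hσ
    rw [Finset.mem_filter, hC] at hσ
    refine ⟨τ⁻¹ * σ, ?_, by rw [mul_inv_cancel_left]⟩
    rw [Finset.mem_filter, hC, S.hm, semi_inv S]
    exact ⟨Finset.mem_univ _, fun h3 => hτ (h3.2 hσ.2)⟩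

/-- the induced class function -/
theorem jj_semi (S : Semi h a b) {C : Subgroup G} (hC : ∀ σ, σ ∈ C ↔ h σ) {τ : G} (hτ : ¬ h τ)
    (g : G) : JJ C (fun c => LinearMap.trace ℂ W (a c)) g =
      (Nat.card C : ℂ) * LinearMap.trace ℂ (W × W) (S.rep g⁻¹) := by
  obtain ⟨k1, k2⟩ := card_compl S hC hτ
  rw [Semi.rep_apply, inv_inv]
  unfold JJ
  by_cases hg : h g
  · rw [trace_opP_pos hg]
    have h1 : ∀ σ : G, (if H : σ⁻¹ * g * σ ∈ C then LinearMap.trace ℂ W
        (a ((⟨σ⁻¹ * g * σ, H⟩ : C) : G)) else 0) =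
        if σ ∈ C then LinearMap.trace ℂ W (a g) else LinearMap.trace ℂ W (b g) := by
      intro σ
      have h2 : σ⁻¹ * g * σ ∈ C := by
        rw [hC, S.hm, S.hm, semi_inv S]
        constructor
        · intro h3
          exact (h3.2 hg)
        · intro h3
          exact iff_of_true h3 hg
      rw [dif_pos h2]
      by_cases hσ : σ ∈ C
      · rw [if_pos hσ]
        exact trace_conj_pos S ((hC σ).1 hσ) hg
      · rw [if_neg hσ]
        exact trace_conj_neg S (fun h3 => hσ ((hC σ).2 h3)) hg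
    rw [Finset.sum_congr rfl fun σ _ => h1 σ, Finset.sum_ite, Finset.sum_const, Finset.sum_const,
      k1, k2, nsmul_eq_mul, nsmul_eq_mul, mul_add]
  · rw [trace_opP_neg hg, mul_zero]
    refine Finset.sum_eq_zero fun σ _ => ?_
    have h2 : ¬ σ⁻¹ * g * σ ∈ C := by
      rw [hC, S.hm, S.hm, semi_inv S]
      intro h3
      by_cases hσ : h σ
      · exact hg ((h3.2 hσ).1 hσ)
      · exact hσ (h3.1 (iff_of_false hσ hg))
    rw [dif_neg h2]

end

end Pool.Agent.H508.R
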