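import Pool.Agent.H508.R.A9

/-!
# The existence of the bases
-/

set_option autoImplicit false
set_option linter.unusedSectionVars false
set_option linter.style.haveILetI false

open Complex NumberField IsDedekindDomain

namespace Pool.Agent.H508.R

open Pool.Agent.Y688 (RR wR w wR_coe HL)
open Pool.Agent.K7.H65.FP (fx toC' toC'_apply galE galE_pos galE_neg)
open Pool.Agent.Y692.QS (toC Ei nr toC_normSq toC_apply toC_star hom hom_apply wC)
open Pool.Agent.H508.D
open scoped Classical Matrix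

section
variable {F : Type} [Field F] [NumberField F] [IsGalois ℚ F] {z : 𝓞 F} {n : ℕ}
  {c : Gal(F/ℚ) → Matrix (Fin n) (Fin n) Ei}

/-- dual normal bases, the transposed relation -/
lemma exists_dual2 : ∃ x y : F, ∀ g : Gal(F/ℚ), ∑ k : Gal(F/ℚ), k y * g (k x) =
    if g = 1 then 1 else 0 := by
  obtain ⟨x, y, hxy⟩ := exists_dual (F := F)
  refine ⟨x, y, fun g => ?_⟩
  let P : Matrix Gal(F/ℚ) Gal(F/ℚ) F := fun k h => h (k x)
  let Q : Matrix Gal(F/ℚ) Gal(F/ℚ) F := fun h k => h (k y)
  have h1 : P * Q = 1 := by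
    ext k k'
    rw [Matrix.mul_apply, Matrix.one_apply]
    have h2 : ∑ h : Gal(F/ℚ), P k h * Q h k' = ∑ h : Gal(F/ℚ), h y * h ((k'⁻¹ * k) x) := by
      rw [← Equiv.sum_comp (Equiv.mulRight k'⁻¹)]
      refine Finset.sum_congr rfl fun h _ => ?_
      show (h * k'⁻¹) (k x) * (h * k'⁻¹) (k' y) = _
      rw [AlgEquiv.mul_apply, AlgEquiv.mul_apply, ← AlgEquiv.mul_apply k'⁻¹ k', inv_mul_cancel,
        AlgEquiv.one_apply, AlgEquiv.mul_apply, mul_comm]
    rw [h2, hxy]
    by_cases h : k = k'
    · rw [if_pos h, if_pos (by rw [h, inv_mul_cancel])]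
    · rw [if_neg h, if_neg (fun h3 => h (by rw [inv_mul_eq_one] at h3; exact h3.symm))]
  have h2 : Q * P = 1 := mul_eq_one_comm.1 h1
  have h3 := congrFun (congrFun h2 1) g
  rw [Matrix.mul_apply, Matrix.one_apply] at h3
  rw [show (if g = 1 then (1 : F) else 0) = if (1 : Gal(F/ℚ)) = g then 1 else 0 by
    by_cases h : g = 1
    · rw [if_pos h, if_pos h.symm]
    · rw [if_neg h, if_neg (fun h' => h h'.symm)], ← h3]
  rfl

lemma hom_gal (hz : (z : F) * z = -1 - z) (hz' : z * z = -1 - z) (σ : Gal(F/ℚ)) (t : Ei) :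
    σ (hom (z : F) hz t) = hom (z : F) hz (galE z σ t) := by
  by_cases h : fx z σ
  · have h1 : σ (z : F) = z := (fx_iff σ).1 h
    rw [galE_pos h, RingHom.id_apply, hom_apply, map_add, map_mul, map_intCast, map_intCast, h1]
  · have h1 : σ (z : F) = -1 - z := by
      have h2 := (Pool.Agent.K7.H65.FP.z_case hz' σ).resolve_left h
      have h3 : ((σ • z : 𝓞 F) : F) = ((-1 - z : 𝓞 F) : F) := congrArg (fun t : 𝓞 F => (t : F)) h2
      have h4 : ((σ • z : 𝓞 F) : F) = σ (z : F) := rfl
      rw [← h4, h3]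
      push_cast
      rfl
    rw [galE_neg h, hom_apply, hom_apply, map_add, map_mul, map_intCast, map_intCast, h1]
    have h2 : starRingEnd Ei t = star t := rfl
    rw [h2, Pool.Agent.Y692.QS.star_re, Pool.Agent.Y692.QS.star_im]
    push_cast
    ring

/-- **the basis of the Lie algebra exists** -/
theorem exists_Lie (hz : z * z = -1 - z) (hc : Coc z c) :
    ∃ B : Matrix (Fin n) (Fin n) F, LieB (coe_z hz) c B := by
  obtain ⟨x, y, hxy⟩ := exists_dual2 (F := F)
  set ev := hom (z : F) (coe_z hz) with hev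
  -- the invariant matrices
  let N : Gal(F/ℚ) → Matrix (Fin n) (Fin n) F := fun k => ∑ g : Gal(F/ℚ), (g (k x)) • (c g).map ev
  have hN : ∀ k σ, (c σ).map ev * (N k).map σ = N k := by
    intro k σ
    have h1 : (N k).map σ = ∑ g : Gal(F/ℚ), ((σ * g) (k x)) • ((c g).map (galE z σ)).map ev := by
      ext i j
      show σ ((∑ g : Gal(F/ℚ), (g (k x)) • (c g).map ev) i j) = _
      rw [Matrix.sum_apply, Matrix.sum_apply, map_sum]
      refine Finset.sum_congr rfl fun g _ => ?_
      rw [Matrix.smul_apply, Matrix.smul_apply, smul_eq_mul, smul_eq_mul, map_mul, Matrix.map_apply,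
        Matrix.map_apply, Matrix.map_apply, hom_gal (coe_z hz) hz]
      rfl
    rw [h1, Finset.mul_sum]
    show _ = ∑ g : Gal(F/ℚ), (g (k x)) • (c g).map ev
    rw [← Equiv.sum_comp (Equiv.mulLeft σ) (fun g : Gal(F/ℚ) => (g (k x)) • (c g).map ev)]
    refine Finset.sum_congr rfl fun g _ => ?_
    rw [Matrix.mul_smul, ← Matrix.map_mul, ← hc.mul]
    rfl
  have hsum : ∑ k : Gal(F/ℚ), (k y) • N k = 1 := by
    have h1 : ∀ k : Gal(F/ℚ), (k y) • N k =
        ∑ g : Gal(F/ℚ), (k y * g (k x)) • (c g).map ev := fun k => by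
      rw [Finset.smul_sum]
      exact Finset.sum_congr rfl fun g _ => by rw [smul_smul]
    rw [Finset.sum_congr rfl fun k _ => h1 k, Finset.sum_comm]
    have h2 : ∀ g : Gal(F/ℚ), ∑ k : Gal(F/ℚ), (k y * g (k x)) • (c g).map ev =
        if g = 1 then (c g).map ev else 0 := fun g => by
      rw [← Finset.sum_smul, hxy]
      split_ifs
      · rw [one_smul]
      · rw [zero_smul]
    rw [Finset.sum_congr rfl fun g _ => h2 g, Finset.sum_ite_eq' Finset.univ (1 : Gal(F/ℚ)),
      if_pos (Finset.mem_univ _), hc.one, Matrix.map_one _ (map_zero _) (map_one _)]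
  -- the columns generate
  let s : Set (Fin n → F) := Set.range fun p : Gal(F/ℚ) × Fin n => fun i => N p.1 i p.2
  have hspan : Submodule.span F s = ⊤ := by
    rw [eq_top_iff]
    intro v _
    have h1 : v = ∑ k : Gal(F/ℚ), ∑ j : Fin n, (k y * v j) • (fun i => N k i j) := by
      funext i
      rw [Finset.sum_apply]
      have h2 := congrArg (fun M : Matrix (Fin n) (Fin n) F => M.mulVec v i) hsum
      simp only [Matrix.one_mulVec] at h2
      rw [← h2, Matrix.mulVec, dotProduct]
      have h3 : ∀ j, (∑ k : Gal(F/ℚ), (k y) • N k) i j * v j =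
          ∑ k : Gal(F/ℚ), k y * v j * N k i j := fun j => by
        rw [Matrix.sum_apply, Finset.sum_mul]
        refine Finset.sum_congr rfl fun k _ => ?_
        rw [Matrix.smul_apply, smul_eq_mul]
        ring
      rw [Finset.sum_congr rfl fun j _ => h3 j, Finset.sum_comm]
      refine Finset.sum_congr rfl fun k _ => ?_
      rw [Finset.sum_apply]
      rfl
    rw [h1]
    exact Submodule.sum_mem _ fun k _ => Submodule.sum_mem _ fun j _ =>
      Submodule.smul_mem _ _ (Submodule.subset_span ⟨(k, j), rfl⟩)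
  obtain ⟨b, hbs, hb1, hb2⟩ := exists_linearIndependent F s
  rw [hspan] at hb1
  let bb : Module.Basis b F (Fin n → F) := Module.Basis.mk hb2 (by rw [Subtype.range_coe, hb1])
  have hfin : Finite b := Module.Finite.finite_basis bb
  have hfb : Fintype b := Fintype.ofFinite b
  have hcard : Fintype.card b = Fintype.card (Fin n) := by
    rw [← Module.finrank_eq_card_basis bb, Module.finrank_fin_fun, Fintype.card_fin]
  let eq : b ≃ Fin n := Fintype.equivOfCardEq hcard
  let B : Matrix (Fin n) (Fin n) F := Matrix.of fun i j => (eq.symm j : Fin n → F) i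
  have hcol : ∀ j, ∃ p : Gal(F/ℚ) × Fin n, ∀ i, B i j = N p.1 i p.2 := fun j => by
    obtain ⟨p, hp⟩ := hbs (eq.symm j).2
    exact ⟨p, fun i => (congrFun hp i).symm⟩
  refine ⟨B, ?_, fun σ => ?_⟩
  · have h1 : LinearIndependent F B.col := by
      have h2 : B.col = (fun x : b => (x : Fin n → F)) ∘ eq.symm := by
        funext j i
        rfl
      rw [h2]
      exact hb2.comp _ eq.symm.injective
    exact (Matrix.isUnit_iff_isUnit_det _).1 (Matrix.linearIndependent_cols_iff_isUnit.1 h1)
  · ext i j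
    obtain ⟨p, hp⟩ := hcol j
    have h1 := congrFun (congrFun (hN p.1 σ) i) p.2
    rw [Matrix.mul_apply] at h1 ⊢
    rw [hp i, ← h1]
    refine Finset.sum_congr rfl fun l _ => ?_
    rw [Matrix.map_apply (M := B), hp l]
    rfl

/-- the values of the polynomial `det(1 + x M)` -/
lemma exists_nonroot (M : Matrix (Fin n) (Fin n) ℂ) {f : ℕ → ℂ} (hf : Function.Injective f) :
    ∃ t, (1 + f t • M).det ≠ 0 := by
  by_contra hcon
  push Not at hcon
  have h1 : ∀ x : ℂ, (Matrix.charpolyRev (-M)).eval x = (1 + x • M).det := fun x => by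
    unfold Matrix.charpolyRev
    rw [← Polynomial.coe_evalRingHom, RingHom.map_det]
    congr 1
    ext i j
    rw [RingHom.mapMatrix_apply, Matrix.map_apply, Matrix.sub_apply, Matrix.add_apply,
      Matrix.smul_apply, Matrix.smul_apply, Matrix.map_apply, Matrix.neg_apply, map_sub,
      Matrix.one_apply, Matrix.one_apply, smul_eq_mul, smul_eq_mul, map_mul,
      Polynomial.coe_evalRingHom, Polynomial.eval_X, Polynomial.eval_C]
    split_ifs
    · rw [Polynomial.eval_one]
      ring
    · rw [Polynomial.eval_zero]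
      ring
  have h2 : (Matrix.charpolyRev (-M)) = 0 := by
    refine Polynomial.eq_zero_of_infinite_isRoot _ ((Set.infinite_range_of_injective hf).mono ?_)
    rintro _ ⟨t, rfl⟩
    show (Matrix.charpolyRev (-M)).eval (f t) = 0
    rw [h1, hcon]
  have h3 := Matrix.eval_charpolyRev (M := -M)
  rw [h2, Polynomial.eval_zero] at h3
  exact zero_ne_one h3

/-- **the basis of the invariant cycles exists** -/
theorem exists_Bet (hz : z * z = -1 - z) (hc : Coc z c) {L' : PeriodPair} {Ω : ℂ} (hL : HL L' Ω)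
    {e : F →+* ℂ} {k : Gal(F/ℚ)} (hk : ∀ y, e (k y) = (starRingEnd ℂ) (e y)) :
    ∃ H : Matrix (Fin n) (Fin n) ℂ, BetB L' (coe_z hz) c e k H := by
  set M : Matrix (Fin n) (Fin n) ℂ := (c k).map (e.comp (hom (z : F) (coe_z hz))) with hM
  have hor : e (z : F) = w ∨ e (z : F) = (starRingEnd ℂ) w := by
    have h1 : (e (z : F) - w) * (e (z : F) - (starRingEnd ℂ) w) = 0 := by
      have h2 := congrArg e (coe_z hz)
      rw [map_mul, map_sub, map_neg, map_one] at h2
      rw [Pool.Agent.Y688.conj_w]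
      linear_combination h2 - Pool.Agent.Y688.w_sq
    rcases mul_eq_zero.1 h1 with h | h
    · exact Or.inl (sub_eq_zero.1 h)
    · exact Or.inr (sub_eq_zero.1 h)
  have hRR : ∀ i j, ∃ r : RR, M i j = r := fun i j => by
    rcases hor with h | h
    · obtain ⟨y, hy, -⟩ := toC_RR (c k i j)
      exact ⟨y, by rw [hy, hM, Matrix.map_apply, RingHom.comp_apply, e_hom' _ h]⟩
    · obtain ⟨y, hy, -⟩ := toC_RR (star (c k i j))
      refine ⟨y, ?_⟩
      rw [hy, hM, Matrix.map_apply, RingHom.comp_apply, e_hom _ h, toC'_apply, toC_star]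
  have hww : (starRingEnd ℂ) w ≠ w := by
    intro h
    rw [Pool.Agent.Y688.conj_w] at h
    have h1 : (3 : ℂ) = 0 := by
      have h2 := Pool.Agent.Y688.w_sq
      linear_combination 4 * h2 + (2 * w + 1) * h
    norm_num at h1
  have hkz : ¬ fx z k := by
    intro h
    have h1 := (fx_iff k).1 h
    have h2 := hk (z : F)
    rw [h1] at h2
    rcases hor with h | h
    · rw [h] at h2
      exact hww h2.symm
    · rw [h, Complex.conj_conj] at h2
      exact hww h2
  have hkk : k * k = 1 := by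
    ext x
    apply e.injective
    rw [AlgEquiv.mul_apply, hk, hk, Complex.conj_conj, AlgEquiv.one_apply]
  have hMM : M * M.map (starRingEnd ℂ) = 1 := by
    have h1 := hc.mul k k
    rw [hkk, hc.one, galE_neg hkz] at h1
    have h2 := congrArg (fun N : Matrix (Fin n) (Fin n) Ei =>
      N.map (e.comp (hom (z : F) (coe_z hz)))) h1
    simp only [Matrix.map_mul, Matrix.map_map] at h2
    rw [Matrix.map_one _ (map_zero _) (map_one _)] at h2
    rw [h2, hM, Matrix.map_map]
    congr 2
    funext t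
    show (starRingEnd ℂ) (e (hom (z : F) (coe_z hz) t)) =
      e (hom (z : F) (coe_z hz) (starRingEnd Ei t))
    have h3 : starRingEnd Ei t = star t := rfl
    rw [h3]
    rcases hor with h | h
    · rw [e_hom' _ h, e_hom' _ h, toC_star]
    · rw [e_hom _ h, e_hom _ h, toC'_apply, toC'_apply, toC_star]
  -- the periods
  have hs : ((1 + wR + wR : RR) : ℂ) = 1 + 2 * w := by push_cast; rw [wR_coe]; ring
  have hs2 : (1 + 2 * w) ^ 2 = -3 := by
    have := Pool.Agent.Y688.w_sq
    linear_combination 4 * this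
  have hsc : (starRingEnd ℂ) (1 + 2 * w) = -(1 + 2 * w) := by
    rw [map_add, map_mul, map_one, map_ofNat, Pool.Agent.Y688.conj_w]
    ring
  obtain ⟨S, hS⟩ : ∃ S : ℂ, S = 1 + 2 * w := ⟨_, rfl⟩
  rw [← hS] at hs hs2 hsc
  have hS0 : S ≠ 0 := by
    intro h
    rw [h] at hs2
    norm_num at hs2
  have hne : ∀ t : ℕ, (t : ℂ) + S ≠ 0 := fun t h => by
    have h1 : S = -(t : ℂ) := by linear_combination h
    have h2 := hsc
    rw [h1, map_neg, Complex.conj_natCast, neg_neg] at h2
    have h3 : (t : ℂ) = 0 := by linear_combination -(1 / 2 : ℂ) * h2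
    rw [h3, neg_zero] at h1
    exact hS0 h1
  have hinj : Function.Injective fun t : ℕ => (starRingEnd ℂ) (((t : ℂ) + S) * Ω) /
      (((t : ℂ) + S) * Ω) := by
    intro t t' h
    have hΩ := hL.ne
    have hΩc : (starRingEnd ℂ) Ω ≠ 0 := fun h0 => hΩ ((map_eq_zero _).1 h0)
    simp only at h
    rw [div_eq_div_iff (mul_ne_zero (hne t) hΩ) (mul_ne_zero (hne t') hΩ), map_mul, map_mul,
      map_add, map_add, Complex.conj_natCast, Complex.conj_natCast, hsc] at h
    have h1 : (2 * S * (starRingEnd ℂ) Ω * Ω) * ((t : ℂ) - t') = 0 := by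
      linear_combination h
    have h2 := (mul_eq_zero.1 h1).resolve_left (mul_ne_zero (mul_ne_zero (mul_ne_zero two_ne_zero hS0)
      hΩc) hΩ)
    exact_mod_cast sub_eq_zero.1 h2
  obtain ⟨t, ht⟩ := exists_nonroot M hinj
  have hX : ((t : ℂ) + S) * Ω ∈ L'.lattice := by
    have h1 : ((t : ℂ) + S) = (((t : RR) + (1 + wR + wR) : RR) : ℂ) := by
      rw [RR.coe_add, hs]
      push_cast
      rfl
    rw [h1, mul_comm]
    exact hL.mem_mul ((t : RR) + (1 + wR + wR))
  have hX0 : ((t : ℂ) + S) * Ω ≠ 0 := mul_ne_zero (hne t) hL.ne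
  obtain ⟨X, hXd⟩ : ∃ X : ℂ, X = ((t : ℂ) + S) * Ω := ⟨_, rfl⟩
  rw [← hXd] at hX hX0 ht
  have hXc := lat_conj hL hX
  refine ⟨X • (1 : Matrix (Fin n) (Fin n) ℂ) + (starRingEnd ℂ) X • M, fun i j => ?_, ?_, ?_⟩
  · rw [Matrix.add_apply, Matrix.smul_apply, Matrix.smul_apply, smul_eq_mul, smul_eq_mul]
    refine add_mem ?_ ?_
    · rw [Matrix.one_apply]
      split_ifs
      · rwa [mul_one]
      · rw [mul_zero]
        exact zero_mem _
    · obtain ⟨r, hr⟩ := hRR i j
      rw [hr, mul_comm]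
      exact hL.mul _ _ hXc
  · have h1 : X • (1 : Matrix (Fin n) (Fin n) ℂ) + (starRingEnd ℂ) X • M =
        X • (1 + ((starRingEnd ℂ) X / X) • M) := by
      rw [smul_add, smul_smul, mul_div_cancel₀ _ hX0]
    rw [h1, Matrix.det_smul]
    exact (mul_ne_zero (pow_ne_zero _ hX0) ht).isUnit
  · have h1 : (X • (1 : Matrix (Fin n) (Fin n) ℂ) + (starRingEnd ℂ) X • M).map (starRingEnd ℂ) =
        (starRingEnd ℂ) X • (1 : Matrix (Fin n) (Fin n) ℂ) + X • M.map (starRingEnd ℂ) := by
      ext i j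
      rw [Matrix.map_apply, Matrix.add_apply, Matrix.add_apply, Matrix.smul_apply,
        Matrix.smul_apply, Matrix.smul_apply, Matrix.smul_apply, Matrix.map_apply,
        smul_eq_mul, smul_eq_mul, smul_eq_mul, smul_eq_mul, map_add, map_mul, map_mul,
        Complex.conj_conj, Matrix.one_apply]
      split_ifs
      · rw [map_one]
      · rw [map_zero]
    rw [h1, mul_add, Matrix.mul_smul, Matrix.mul_smul, mul_one, hMM, add_comm]

end

end Pool.Agent.H508.R
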