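import Pool.Agent.H508.R.A1

/-!
# The primes of the quadratic field and the averages
-/

set_option autoImplicit false
set_option linter.unusedSectionVars false
set_option linter.style.haveILetI false

open Complex NumberField IsDedekindDomain

namespace Pool.Agent.H508.R

open Pool.Agent.K7.H70.EQ (HH avg frob_conj avg_pow avg_fin det_exp)
open Pool.Agent.K7.H70.SE (GoodG und0_tower exists_above ps rt rd RdOk lt)
open Pool.Agent.Y696 (nK und0 card_nm)
open Pool.Agent.Y688 (RR wR w)
open Pool.Agent.K7.H70.AW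
open Pool.Agent.K7.H65.FP (Semi opP opP_pos opP_neg trace_opP_pos trace_opP_neg fx fx_one fx_mul
  z_case z_ne fx_inertia fx_frob toC' toC'_apply toC_add toC_mul)
open Pool.Agent.Y692.QS (toC Ei nr)
open IntermediateField (fixedField subgroupEquivAlgEquiv)
open Pool.Agent.H508.D
open scoped Classical

section
variable {K F : Type} [Field K] [NumberField K] [Field F] [NumberField F] [Algebra K F]
  [IsGalois K F] {z : 𝓞 F} {C : Subgroup Gal(F/K)}

/-- the class function on the Galois group over the fixed field -/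
noncomputable def dn (C : Subgroup Gal(F/K)) (χ : Gal(F/K) → ℂ) (g : Gal(F/fixedField C)) : ℂ :=
  χ ((subgroupEquivAlgEquiv C).symm g : Gal(F/K))

lemma dn_up (χ : Gal(F/K) → ℂ) (c : C) : dn C χ (subgroupEquivAlgEquiv C c) = χ c := by
  unfold dn
  rw [MulEquiv.symm_apply_apply]

/-- the action -/
lemma sym_smul (g : Gal(F/fixedField C)) (x : 𝓞 F) :
    ((subgroupEquivAlgEquiv C).symm g : Gal(F/K)) • x = g • x := by
  apply RingOfIntegers.ext
  have h1 := (subgroupEquivAlgEquiv C).apply_symm_apply g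
  have h2 := congrArg (fun f : Gal(F/fixedField C) => f (x : F)) h1
  exact h2

/-- the average over the fixed field, for a prime whose norm does not change -/
lemma av_dn {w : HeightOneSpectrum (𝓞 F)} {m : ℕ} {χ : Gal(F/K) → ℂ}
    (hN : nK (und0 (fixedField C) w) = nK (und0 K w))
    (hfr : ∀ g : Gal(F/K), Fr K w (nK (und0 K w) ^ m) g → g ∈ C) :
    av (fixedField C) (dn C χ) w m = av K χ w m := by
  unfold av
  rw [hN]
  let e : {g : Gal(F/fixedField C) // Fr (fixedField C) w (nK (und0 K w) ^ m) g} ≃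
      {g : Gal(F/K) // Fr K w (nK (und0 K w) ^ m) g} :=
    { toFun := fun g => ⟨((subgroupEquivAlgEquiv C).symm g.1 : Gal(F/K)), fun x => by
        rw [sym_smul]
        exact g.2 x⟩
      invFun := fun g => ⟨subgroupEquivAlgEquiv C ⟨g.1, hfr _ g.2⟩, fun x => by
        rw [← sym_smul, MulEquiv.symm_apply_apply]
        exact g.2 x⟩
      left_inv := fun g => Subtype.ext (by
        show subgroupEquivAlgEquiv C ⟨((subgroupEquivAlgEquiv C).symm g.1 : Gal(F/K)), _⟩ = g.1
        rw [Subtype.coe_eta, MulEquiv.apply_symm_apply])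
      right_inv := fun g => Subtype.ext (by
        show (((subgroupEquivAlgEquiv C).symm (subgroupEquivAlgEquiv C ⟨g.1, _⟩) : C) :
          Gal(F/K)) = g.1
        rw [MulEquiv.symm_apply_apply]) }
  rw [Nat.card_congr e]
  congr 1
  exact Fintype.sum_equiv e _ _ fun g => rfl

variable {W : Type} [AddCommGroup W] [Module ℂ W] [FiniteDimensional ℂ W]
  {a b : Gal(F/K) → Module.End ℂ W}
  {wf : HeightOneSpectrum (𝓞 (fixedField C)) → HeightOneSpectrum (𝓞 F)}

/-- **the sum over the primes of the fixed field above a prime** -/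
theorem sum_av (S : Semi (fx z) a b) (hC : ∀ σ, σ ∈ C ↔ fx z σ) {τ : Gal(F/K)} (hτ : ¬ fx z τ)
    (hwf : ∀ u, und0 (fixedField C) (wf u) = u) (w : HeightOneSpectrum (𝓞 F)) {m : ℕ}
    (hm : 0 < m) :
    ∑ u : {u : HeightOneSpectrum (𝓞 (fixedField C)) // und0 K u = und0 K w},
      (if rd K u.1 ∣ m then (rd K u.1 : ℂ) *
        av (fixedField C) (dn C fun g => LinearMap.trace ℂ W (a g)) (wf u.1) (m / rd K u.1) else 0) =
      av K (fun g => LinearMap.trace ℂ (W × W) (S.rep g⁻¹)) w m := by
  have h0 : (Nat.card C : ℂ) ≠ 0 := Nat.cast_ne_zero.2 Nat.card_pos.ne'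
  have h1 := LOC.t_loc K F C (dn C fun g => LinearMap.trace ℂ W (a g)) (fun x y => by
    have h2 := trace_conj_pos S (σ := (((subgroupEquivAlgEquiv C).symm x)⁻¹ : C))
      (g := ((subgroupEquivAlgEquiv C).symm y : C))
      ((hC _).1 (((subgroupEquivAlgEquiv C).symm x)⁻¹).2) ((hC _).1 ((subgroupEquivAlgEquiv C).symm y).2)
    rw [Subgroup.coe_inv, inv_inv] at h2
    show LinearMap.trace ℂ W (a ((subgroupEquivAlgEquiv C).symm (x * y * x⁻¹) : Gal(F/K))) = _
    rw [map_mul, map_mul, map_inv, Subgroup.coe_mul, Subgroup.coe_mul, Subgroup.coe_inv]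
    exact h2) wf hwf w m hm
  have h2 : JJ C (fun c => dn C (fun g => LinearMap.trace ℂ W (a g)) (subgroupEquivAlgEquiv C c)) =
      fun g => (Nat.card C : ℂ) * LinearMap.trace ℂ (W × W) (S.rep g⁻¹) := by
    funext g
    have h3 : (fun c : C => dn C (fun g => LinearMap.trace ℂ W (a g)) (subgroupEquivAlgEquiv C c)) =
        fun c : C => LinearMap.trace ℂ W (a c) := funext fun c => dn_up _ c
    rw [h3]
    exact jj_semi S hC hτ g
  rw [h2, av_mul] at h1
  exact (mul_left_cancel₀ h0 h1).symm

end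

end Pool.Agent.H508.R
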