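import Pool.Agent.H508.R.A2

/-!
# The residue degrees of the primes of the quadratic extension
-/

set_option autoImplicit false
set_option linter.unusedSectionVars false
set_option linter.style.haveILetI false

open Complex NumberField IsDedekindDomain

namespace Pool.Agent.H508.R

open Pool.Agent.K7.H70.EQ (HH avg frob_conj avg_pow avg_fin det_exp)
open Pool.Agent.K7.H70.SE (GoodG und0_tower exists_above ps rt rd RdOk lt rt_a rt_spec)
open Pool.Agent.Y696 (nK und0 card_nm aV_inert eis om bel mem_bel deg_base exists_prim psi_prim E0)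
open Pool.Agent.Y688 (RR wR w)
open Pool.Agent.R430 (PN PN_prime PN_three PN_good iE tE tR)
open Pool.Agent.W192.HK (sp)
open Pool.Agent.K7.H70.AW
open Pool.Agent.K7.H65.FP (Semi opP opP_pos opP_neg trace_opP_pos trace_opP_neg fx fx_one fx_mul
  z_case z_ne fx_inertia fx_frob toC' toC'_apply toC_add toC_mul)
open Pool.Agent.Y692.QS (toC Ei nr)
open IntermediateField (fixedField subgroupEquivAlgEquiv)
open Pool.Agent.H508.D
open scoped Classical

section
variable {K F : Type} [Field K] [NumberField K] [Field F] [NumberField F] [Algebra K F]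
  [IsGalois K F] {z : 𝓞 F} {C : Subgroup Gal(F/K)}

lemma av_const {w : HeightOneSpectrum (𝓞 F)} {m : ℕ} {χ : Gal(F/K) → ℂ} {c : ℂ}
    (h : ∀ g : Gal(F/K), Fr K w (nK (und0 K w) ^ m) g → χ g = c) : av K χ w m = c := by
  obtain ⟨φ, hφ⟩ := exists_frob' (K := K) w
  have hne : Nonempty {g : Gal(F/K) // Fr K w (nK (und0 K w) ^ m) g} :=
    ⟨⟨φ ^ m, fr_pow' hφ m⟩⟩
  unfold av
  rw [Finset.sum_congr rfl (g := fun _ => c) (fun g _ => h g.1 g.2), Finset.sum_const,
    Finset.card_univ, nsmul_eq_mul, ← Nat.card_eq_fintype_card, ← mul_assoc, inv_mul_cancel₀,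
    one_mul]
  exact Nat.cast_ne_zero.2 Nat.card_pos.ne'

/-- the Frobenius elements of level `m` and the cube roots of unity -/
lemma fr_fx (hz : z * z = -1 - z) {w : HeightOneSpectrum (𝓞 F)} (h3 : (3 : 𝓞 F) ∉ w.asIdeal) {q : ℕ}
    {g : Gal(F/K)} (hg : Fr K w q g) : (q % 3 = 1 → fx z g) ∧ (q % 3 = 2 → ¬ fx z g) :=
  fx_frob hz h3 (hg z)

lemma semi_triv (hz : z * z = -1 - z) : Semi (fx (K := K) z) (fun _ => (1 : Module.End ℂ ℂ)) fun _ => 1 where
  h1 := fx_one
  hm := fx_mul hz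
  a1 := rfl
  b1 := rfl
  am σ τ := by rw [ite_self, mul_one]
  bm σ τ := by rw [ite_self, mul_one]

variable {wf : HeightOneSpectrum (𝓞 (fixedField C)) → HeightOneSpectrum (𝓞 F)}

lemma tr_one : LinearMap.trace ℂ ℂ (1 : Module.End ℂ ℂ) = 1 := by
  rw [LinearMap.trace_one, Module.finrank_self, Nat.cast_one]

/-- the sum of the residue degrees -/
lemma sum_rd (hz : z * z = -1 - z) (hC : ∀ σ, σ ∈ C ↔ fx z σ) {τ : Gal(F/K)} (hτ : ¬ fx z τ)
    (w : HeightOneSpectrum (𝓞 F)) {m : ℕ} (hm : 0 < m) {n : ℕ}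
    (hn : ∀ g : Gal(F/K), Fr K w (nK (und0 K w) ^ m) g → n = if fx z g then 2 else 0) :
    ∑ u : {u : HeightOneSpectrum (𝓞 (fixedField C)) // und0 K u = und0 K w},
      (if rd K u.1 ∣ m then rd K u.1 else 0) = n := by
  have h1 := sum_av (semi_triv (K := K) hz) hC hτ (wU_und (F := F) (fixedField C)) w hm
  have h2 : av K (fun g => LinearMap.trace ℂ (ℂ × ℂ) ((semi_triv (K := K) hz).rep g⁻¹)) w m = n := by
    refine av_const fun g hg => ?_
    rw [Semi.rep_apply, inv_inv, hn g hg]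
    by_cases h : fx z g
    · rw [trace_opP_pos h, if_pos h, tr_one]
      push_cast
      ring
    · rw [trace_opP_neg h, if_neg h, Nat.cast_zero]
  rw [h2] at h1
  have h3 : ∀ u : {u : HeightOneSpectrum (𝓞 (fixedField C)) // und0 K u = und0 K w},
      (if rd K u.1 ∣ m then (rd K u.1 : ℂ) * av (fixedField C)
        (dn C fun g => LinearMap.trace ℂ ℂ ((fun _ : Gal(F/K) => (1 : Module.End ℂ ℂ)) g))
        (wU (fixedField C) F u.1) (m / rd K u.1) else 0) =
      ((if rd K u.1 ∣ m then rd K u.1 else 0 : ℕ) : ℂ) := by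
    intro u
    split_ifs with h
    · rw [av_const (c := 1), mul_one]
      intro g _
      exact tr_one
    · rw [Nat.cast_zero]
  rw [Finset.sum_congr rfl fun u _ => h3 u, ← Nat.cast_sum] at h1
  exact_mod_cast h1

variable {w : HeightOneSpectrum (𝓞 F)}

lemma pow_mod {q : ℕ} (m : ℕ) : (q % 3 = 1 → q ^ m % 3 = 1) ∧ (q % 3 = 2 → (2 ∣ m → q ^ m % 3 = 1) ∧
    (m = 1 → q ^ m % 3 = 2)) := by
  refine ⟨fun h => ?_, fun h => ⟨fun ⟨k, hk⟩ => ?_, fun hm => ?_⟩⟩
  · rw [Nat.pow_mod, h, one_pow]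
    rfl
  · rw [hk, pow_mul, Nat.pow_mod, pow_two, Nat.mul_mod, h]
    norm_num
  · rw [hm, pow_one, h]

/-- the split primes -/
theorem rd_one (hz : z * z = -1 - z) (hC : ∀ σ, σ ∈ C ↔ fx z σ) {τ : Gal(F/K)} (hτ : ¬ fx z τ)
    (h3 : (3 : 𝓞 F) ∉ w.asIdeal) (hq : nK (und0 K w) % 3 = 1) :
    (∀ u : {u : HeightOneSpectrum (𝓞 (fixedField C)) // und0 K u = und0 K w}, rd K u.1 = 1) ∧
    Fintype.card {u : HeightOneSpectrum (𝓞 (fixedField C)) // und0 K u = und0 K w} = 2 := by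
  have key : ∀ m : ℕ, 0 < m → ∑ u : {u : HeightOneSpectrum (𝓞 (fixedField C)) //
      und0 K u = und0 K w}, (if rd K u.1 ∣ m then rd K u.1 else 0) = 2 := fun m hm =>
    sum_rd hz hC hτ w hm fun g hg => by
      rw [if_pos ((fr_fx hz h3 hg).1 ((pow_mod m).1 hq))]
  have hall : ∀ u : {u : HeightOneSpectrum (𝓞 (fixedField C)) // und0 K u = und0 K w},
      rd K u.1 = 1 := by
    intro u₀
    by_contra hne
    have hpos : 0 < rd K u₀.1 := (rdOk_all (K := K)).pos u₀.1
    have h1 := key 1 one_pos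
    have h2 := key (rd K u₀.1) hpos
    have h4 : ∑ u : {u : HeightOneSpectrum (𝓞 (fixedField C)) // und0 K u = und0 K w},
        (if rd K u.1 ∣ 1 then rd K u.1 else 0) <
        ∑ u : {u : HeightOneSpectrum (𝓞 (fixedField C)) // und0 K u = und0 K w},
        (if rd K u.1 ∣ rd K u₀.1 then rd K u.1 else 0) := by
      refine Finset.sum_lt_sum (fun u _ => ?_) ⟨u₀, Finset.mem_univ _, ?_⟩
      · by_cases h5 : rd K u.1 ∣ 1
        · rw [if_pos h5, if_pos (h5.trans (one_dvd _))]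
        · rw [if_neg h5]
          exact Nat.zero_le _
      · rw [if_neg (fun h5 => hne (Nat.dvd_one.1 h5)), if_pos dvd_rfl]
        exact hpos
    rw [h1, h2] at h4
    exact lt_irrefl _ h4
  refine ⟨hall, ?_⟩
  have h1 := key 1 one_pos
  rw [Finset.sum_congr rfl (g := fun _ => 1) (fun u _ => by rw [hall u, if_pos dvd_rfl]),
    Finset.sum_const, Finset.card_univ, smul_eq_mul, mul_one] at h1
  exact h1

/-- the inert primes -/
theorem rd_two (hz : z * z = -1 - z) (hC : ∀ σ, σ ∈ C ↔ fx z σ) {τ : Gal(F/K)} (hτ : ¬ fx z τ)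
    (h3 : (3 : 𝓞 F) ∉ w.asIdeal) (hq : nK (und0 K w) % 3 = 2)
    (u : {u : HeightOneSpectrum (𝓞 (fixedField C)) // und0 K u = und0 K w}) : rd K u.1 = 2 := by
  have hpos : 0 < rd K u.1 := (rdOk_all (K := K)).pos u.1
  have k1 := sum_rd (C := C) hz hC hτ w one_pos (n := 0) fun g hg => by
    rw [if_neg ((fr_fx hz h3 hg).2 (((pow_mod 1).2 hq).2 rfl))]
  have k2 := sum_rd (C := C) hz hC hτ w (m := 2 * rd K u.1) (by positivity) (n := 2) fun g hg => by
    rw [if_pos ((fr_fx hz h3 hg).1 (((pow_mod _).2 hq).1 (dvd_mul_right _ _)))]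
  have h1 : rd K u.1 ≠ 1 := by
    intro h
    have h2 := Finset.sum_eq_zero_iff.1 k1 u (Finset.mem_univ _)
    rw [h, if_pos dvd_rfl] at h2
    exact one_ne_zero h2
  have h2 : (if rd K u.1 ∣ 2 * rd K u.1 then rd K u.1 else 0) ≤ 2 := le_of_le_of_eq
    (Finset.single_le_sum (f := fun u' : {u : HeightOneSpectrum (𝓞 (fixedField C)) //
      und0 K u = und0 K w} => if rd K u'.1 ∣ 2 * rd K u.1 then rd K u'.1 else 0)
      (fun _ _ => Nat.zero_le _) (Finset.mem_univ u)) k2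
  rw [if_pos (dvd_mul_left _ _)] at h2
  omega

end

section
variable {M : Type} [Field M] [NumberField M] {ι : RR →+* 𝓞 M} {u : HeightOneSpectrum (𝓞 M)}

/-- the value of the Hecke character generates the prime below -/
theorem PN_gen (h3 : (3 : 𝓞 M) ∉ u.asIdeal) (hp : (nK u).Prime) :
    ∃ x : RR, (x : ℂ) = (starRingEnd ℂ) (PN ι u.asIdeal) ∧ ∀ y : RR, ι y ∈ u.asIdeal ↔ x ∣ y := by
  obtain ⟨f, hf0, hf⟩ := deg_base (iE ι) u
  have hf1 : f = 1 := by
    by_contra hne
    rw [hf] at hp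
    exact Nat.Prime.not_prime_pow (by omega : 2 ≤ f) hp
  have h1 := PN_prime (ι := ι) u hf
  rw [hf1, pow_one] at h1
  have hcop : IsCoprime (bel (iE ι) u).asIdeal (sp 3) := by
    have hpmax : (bel (iE ι) u).asIdeal.IsMaximal := (bel (iE ι) u).isPrime.isMaximal (bel (iE ι) u).ne_bot
    rw [Ideal.isCoprime_iff_sup_eq]
    by_contra hne
    obtain ⟨M', hM, hle⟩ := Ideal.exists_le_maximal _ hne
    have h4 : (bel (iE ι) u).asIdeal = M' := hpmax.eq_of_le hM.ne_top (le_sup_left.trans hle)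
    have h5 : (3 : eis) ∈ (bel (iE ι) u).asIdeal := by
      rw [h4]
      exact hle (Ideal.mem_sup_right (Ideal.mem_span_singleton_self 3))
    rw [mem_bel, map_ofNat] at h5
    exact h3 h5
  obtain ⟨α, hα1, hα2⟩ := exists_prim hcop
  refine ⟨tR α, ?_, fun y => ?_⟩
  · rw [h1, Complex.conj_conj, hα1, psi_prim hα2]
    rfl
  · have e1 : ι y ∈ u.asIdeal ↔ tE y ∈ (bel (iE ι) u).asIdeal := by
      rw [mem_bel]
      exact Iff.rfl
    rw [e1, hα1, Ideal.mem_span_singleton]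
    constructor
    · rintro ⟨k, hk⟩
      refine ⟨tR k, ?_⟩
      have := congrArg tR hk
      exact this
    · rintro ⟨k, hk⟩
      refine ⟨tE k, ?_⟩
      have := congrArg tE hk
      exact this

end

end Pool.Agent.H508.R
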