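import Pool.Agent.H508.R.A3

/-!
# The values of the Hecke character at the primes of the quadratic field
-/

set_option autoImplicit false
set_option linter.unusedSectionVars false
set_option linter.style.haveILetI false

open Complex NumberField IsDedekindDomain

namespace Pool.Agent.H508.R

open Pool.Agent.K7.H70.EQ (HH avg frob_conj avg_pow avg_fin det_exp)
open Pool.Agent.K7.H70.SE (GoodG und0_tower exists_above ps rt rd RdOk lt rt_a rt_spec)
open Pool.Agent.Y696 (nK und0 card_nm aV_inert eis om bel mem_bel deg_base exists_prim psi_prim E0)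
open Pool.Agent.Y688 (RR wR w wR_coe)
open Pool.Agent.R430 (PN PN_prime PN_three PN_good iE tE tR)
open Pool.Agent.W192.HK (sp)
open Pool.Agent.W189.NF (aV eV)
open Pool.Agent.K7.H70.AW
open Pool.Agent.K7.H65.FP (Semi opP opP_pos opP_neg trace_opP_pos trace_opP_neg fx fx_one fx_mul
  z_case z_ne fx_inertia fx_frob toC' toC'_apply toC_add toC_mul)
open Pool.Agent.Y692.QS (toC Ei nr)
open IntermediateField (fixedField subgroupEquivAlgEquiv)
open Pool.Agent.H508.D
open scoped Classical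

/-- the norms of the primes of the rational numbers -/
lemma nK_rat (v : HeightOneSpectrum (𝓞 ℚ)) : (nK v).Prime := by
  have h1 := Rat.HeightOneSpectrum.span_natGenerator v
  have h2 := Rat.HeightOneSpectrum.prime_natGenerator v
  have h3 : Nat.card (𝓞 ℚ ⧸ v.asIdeal) = Rat.HeightOneSpectrum.natGenerator v := by
    rw [Nat.card_congr (Ideal.quotientEquiv v.asIdeal
      (Ideal.span {(Rat.HeightOneSpectrum.natGenerator v : ℤ)})
      (Rat.IsIntegralClosure.intEquiv (𝓞 ℚ)) h1).toEquiv]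
    rw [Nat.card_congr (Int.quotientSpanEquivZMod _).toEquiv, Nat.card_zmod, Int.natAbs_natCast]
  rw [← card_nm, h3]
  exact h2

section
variable {K M : Type} [Field K] [NumberField K] [Field M] [NumberField M] [Algebra K M]
  {ι : RR →+* 𝓞 M} {u : HeightOneSpectrum (𝓞 M)}

/-- the inert primes -/
theorem PN_inert (hK : GoodG K) (hM : GoodG M) (h3 : (3 : 𝓞 M) ∉ u.asIdeal)
    (hq : nK (und0 K u) % 3 = 2) (hr : rd K u = 2) :
    PN ι u.asIdeal = -(nK (und0 K u) : ℂ) := by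
  have h3' : (3 : 𝓞 K) ∉ (und0 K u).asIdeal := fun h => h3 (Pool.Agent.K7.H70.SE.mem_und0.1 h)
  have h1 := ps_cmp hK hM (rdOk_all (K := K) (M := M)) u 1
  rw [hr, ps_PW (ι := ι)] at h1
  unfold PW ps at h1
  rw [pow_one] at h1
  have ha := rt_a hK (und0 K u)
  have hrm := (rt_spec hK h3').1
  rw [(aV_inert h3' hq).1] at ha
  have h4 := (PN_good (ι := ι) h3).1
  have h5 : (nK u : ℂ) = (nK (und0 K u) : ℂ) ^ 2 := by
    have := (rdOk_all (K := K) (M := M)).norm u
    rw [this, hr]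
    push_cast
    rfl
  rw [h5] at h4
  set r := rt hK (und0 K u)
  set q : ℂ := (nK (und0 K u) : ℂ)
  set x := PN ι u.asIdeal
  have hcr : (starRingEnd ℂ) r = -r := by
    push_cast at ha
    linear_combination -ha
  rw [hcr] at h1 hrm
  have h6 : x + (starRingEnd ℂ) x = -2 * q := by
    have : x + (starRingEnd ℂ) x = r ^ (2 * 1) + (-r) ^ (2 * 1) := h1
    rw [this]
    linear_combination -2 * hrm
  have h7 : (x + q) ^ 2 = 0 := by linear_combination x * h6 - h4
  have h8 : x + q = 0 := pow_eq_zero_iff two_ne_zero |>.1 h7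
  linear_combination h8

/-- the split primes -/
theorem PN_split (hK : GoodG K) (hM : GoodG M) (h3 : (3 : 𝓞 M) ∉ u.asIdeal) (hr : rd K u = 1)
    {x : Ei} (hx : nr x = nK (und0 K u)) (hx2 : 2 * x.re - x.im = aV (E0 K) (und0 K u)) :
    PN ι u.asIdeal = toC x ∨ PN ι u.asIdeal = toC' x := by
  have h1 := ps_cmp hK hM (rdOk_all (K := K) (M := M)) u 1
  rw [hr, ps_PW (ι := ι)] at h1
  unfold PW ps at h1
  rw [pow_one, mul_one, pow_one, pow_one] at h1
  rw [← rt_a hK, ← hx2, ← toC_add] at h1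
  have h4 := (PN_good (ι := ι) h3).1
  have h5 : (nK u : ℂ) = toC x * toC' x := by
    have := (rdOk_all (K := K) (M := M)).norm u
    rw [this, hr, pow_one, toC_mul, hx]
    push_cast
    rfl
  rw [h5] at h4
  have h6 : (PN ι u.asIdeal - toC x) * (PN ι u.asIdeal - toC' x) = 0 := by
    linear_combination PN ι u.asIdeal * h1 - h4
  rcases mul_eq_zero.1 h6 with h | h
  · exact Or.inl (sub_eq_zero.1 h)
  · exact Or.inr (sub_eq_zero.1 h)

end

lemma toC_RR (x : Ei) : ∃ y : RR, (y : ℂ) = toC x ∧ y = (x.re : RR) + (x.im : RR) * wR := by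
  refine ⟨(x.re : RR) + (x.im : RR) * wR, ?_, rfl⟩
  push_cast
  rw [wR_coe, Pool.Agent.Y692.QS.toC_apply]
  rfl

section
variable {M F : Type} [Field M] [NumberField M] [Field F] [NumberField F] [Algebra M F]
  {z : 𝓞 F} {ι : RR →+* 𝓞 M} {W : HeightOneSpectrum (𝓞 F)}

/-- the prime below the given prime -/
theorem PN_first (hz : z * z = -1 - z) (hι : algebraMap (𝓞 M) (𝓞 F) (ι wR) = -1 - z)
    (h3 : (3 : 𝓞 F) ∉ W.asIdeal) {q : ℕ} (hqp : q.Prime) (hN : nK (und0 M W) = q)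
    (hqW : (q : 𝓞 F) ∈ W.asIdeal)
    {x : Ei} (hx : nr x = q) (hxW : (x.re : 𝓞 F) + x.im * z ∈ W.asIdeal)
    (hor : PN ι (und0 M W).asIdeal = toC x ∨ PN ι (und0 M W).asIdeal = toC' x) :
    PN ι (und0 M W).asIdeal = toC x := by
  rcases hor with h | h
  · exact h
  exfalso
  have h3' : (3 : 𝓞 M) ∉ (und0 M W).asIdeal := fun h => h3 (Pool.Agent.K7.H70.SE.mem_und0.1 h)
  obtain ⟨y, hy1, hy2⟩ := PN_gen (ι := ι) h3' (by rw [hN]; exact hqp)
  obtain ⟨y', hy1', hy2'⟩ := toC_RR x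
  have hyy : y = y' := Subtype.ext (by rw [hy1, h, toC'_apply, Complex.conj_conj, hy1'])
  have h4 : ι y ∈ (und0 M W).asIdeal := (hy2 y).2 dvd_rfl
  have h5 : algebraMap (𝓞 M) (𝓞 F) (ι y) ∈ W.asIdeal := h4
  rw [hyy, hy2', map_add, map_mul, map_intCast, map_intCast, map_add, map_mul, map_intCast,
    map_intCast, hι] at h5
  have h6 : (x.im : 𝓞 F) * 3 ∈ W.asIdeal := by
    have h7 := W.asIdeal.mul_mem_left (2 * z + 1) (W.asIdeal.sub_mem hxW h5)
    have h8 : (2 * z + 1) * ((x.re : 𝓞 F) + x.im * z - ((x.re : 𝓞 F) + x.im * (-1 - z))) =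
        -((x.im : 𝓞 F) * 3) := by linear_combination 4 * (x.im : 𝓞 F) * hz
    rw [h8] at h7
    have h9 := W.asIdeal.neg_mem h7
    rwa [neg_neg] at h9
  have hWp := W.isPrime
  have hr : (x.im : 𝓞 F) ∈ W.asIdeal := (hWp.mem_or_mem h6).resolve_right h3
  have hr2 : (x.re : 𝓞 F) ∈ W.asIdeal := by
    have h7 := W.asIdeal.sub_mem hxW (W.asIdeal.mul_mem_right z hr)
    rwa [add_sub_cancel_right] at h7
  have hdiv : ∀ n : ℤ, (n : 𝓞 F) ∈ W.asIdeal → (q : ℤ) ∣ n := by
    intro n hn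
    by_contra hcon
    have hcop : IsCoprime (q : ℤ) n := (Nat.prime_iff_prime_int.1 hqp).coprime_iff_not_dvd.2 hcon
    obtain ⟨s, t, hst⟩ := hcop
    apply hWp.ne_top
    rw [Ideal.eq_top_iff_one]
    have h7 := W.asIdeal.add_mem (W.asIdeal.mul_mem_left (s : 𝓞 F) hqW)
      (W.asIdeal.mul_mem_left (t : 𝓞 F) hn)
    have h8 : (s : 𝓞 F) * (q : 𝓞 F) + (t : 𝓞 F) * (n : 𝓞 F) = 1 := by exact_mod_cast hst
    rwa [h8] at h7
  obtain ⟨s, hs⟩ := hdiv _ hr
  obtain ⟨t, ht⟩ := hdiv _ hr2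
  have h9 : nr x = (q : ℤ) * ((q : ℤ) * (t ^ 2 - t * s + s ^ 2)) := by
    show x.re ^ 2 - x.re * x.im + x.im ^ 2 = _
    rw [hs, ht]
    ring
  rw [hx] at h9
  have hq0 : (q : ℤ) ≠ 0 := by exact_mod_cast hqp.ne_zero
  have h10 : (1 : ℤ) = (q : ℤ) * (t ^ 2 - t * s + s ^ 2) := by
    apply mul_left_cancel₀ hq0
    rw [mul_one]
    exact h9
  have h11 : (q : ℤ) ∣ 1 := ⟨_, h10⟩
  exact hqp.one_lt.ne' (by exact_mod_cast Int.eq_one_of_dvd_one (Int.natCast_nonneg q) h11)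

end

end Pool.Agent.H508.R
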