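import Pool.Agent.H508.R.A4

/-!
# The local terms
-/

set_option autoImplicit false
set_option linter.unusedSectionVars false
set_option linter.style.haveILetI false

open Complex NumberField IsDedekindDomain

namespace Pool.Agent.H508.R

open Pool.Agent.K7.H70.EQ (HH avg frob_conj avg_pow avg_fin det_exp)
open Pool.Agent.K7.H70.SE (GoodG und0_tower exists_above ps rt rd RdOk lt rt_a rt_spec rt_lt)
open Pool.Agent.Y696 (nK und0 card_nm aV_inert eis om bel mem_bel deg_base exists_prim psi_prim E0)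
open Pool.Agent.Y688 (RR wR w wR_coe)
open Pool.Agent.R430 (PN PN_prime PN_three PN_good iE tE tR)
open Pool.Agent.W192.HK (sp)
open Pool.Agent.W189.NF (aV eV)
open Pool.Agent.K7.H70.AW
open Pool.Agent.K7.H65.FP (Semi opP opP_pos opP_neg trace_opP_pos trace_opP_neg fx fx_one fx_mul
  z_case z_ne fx_inertia fx_frob toC' toC'_apply toC_add toC_mul prodMap_pow prodMap_inj)
open Pool.Agent.Y692.QS (toC Ei nr)
open IntermediateField (fixedField subgroupEquivAlgEquiv)
open Pool.Agent.H508.D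
open scoped Classical

/-- the average of the operators over a coset -/
noncomputable abbrev oav {G : Type} [Group G] {W : Type} [AddCommGroup W] [Module ℂ W] [Fintype G]
    (a : G → Module.End ℂ W) (I : Subgroup G) (φ : G) : Module.End ℂ W :=
  Pool.Agent.K7.H65.FP.av a I φ

section
variable {G : Type} [Group G] [Fintype G] {W : Type} [AddCommGroup W] [Module ℂ W]
  [FiniteDimensional ℂ W] {h : G → Prop} {a b : G → Module.End ℂ W}

lemma semi_pow (S : Semi h a b) {I : Subgroup G} (hI : ∀ i ∈ I, h i) {φ : G} (hφ : h φ)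
    (hφI : ∀ i ∈ I, φ⁻¹ * i * φ ∈ I) (m : ℕ) :
    oav a I φ ^ (m + 1) = oav a I (φ ^ (m + 1)) ∧ oav b I φ ^ (m + 1) = oav b I (φ ^ (m + 1)) := by
  have h1 := avg_pow S.rep I hφI m
  rw [S.avg_pos hI hφ, S.avg_pos hI (S.h_pow hφ _), prodMap_pow] at h1
  exact prodMap_inj h1

lemma semi_fin (S : Semi h a b) {I : Subgroup G} (hI : ∀ i ∈ I, h i) {φ : G} (hφ : h φ)
    (hφI : ∀ i ∈ I, φ⁻¹ * i * φ ∈ I) :
    oav a I φ ^ (orderOf φ + 1) = oav a I φ ∧ oav b I φ ^ (orderOf φ + 1) = oav b I φ := by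
  have h1 := avg_fin S.rep I hφI
  rw [S.avg_pos hI hφ, prodMap_pow] at h1
  exact prodMap_inj h1

/-- a sum over two conjugate families -/
lemma loc_two (S : Semi h a b) {I : Subgroup G} (hI : ∀ i ∈ I, h i) {φ : G} (hφ : h φ)
    (hφI : ∀ i ∈ I, φ⁻¹ * i * φ ∈ I) {α β : ℂ} (hα : ‖α‖ < 1) (hβ : ‖β‖ < 1) :
    ∃ L : ℂ, HasSum (fun m : ℕ => (LinearMap.trace ℂ W (oav a I (φ ^ (m + 1))) * α ^ (m + 1) +
      LinearMap.trace ℂ W (oav b I (φ ^ (m + 1))) * β ^ (m + 1)) / (m + 1)) L ∧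
      Complex.exp L = (LinearMap.det ((1 : Module.End ℂ W) - α • oav a I φ) *
        LinearMap.det ((1 : Module.End ℂ W) - β • oav b I φ))⁻¹ := by
  obtain ⟨hf1, hf2⟩ := semi_fin S hI hφ hφI
  obtain ⟨L1, h1, e1⟩ := det_exp (oav a I φ) (orderOf_pos φ) hf1 (a := α) (b := 0) hα
    (by rw [norm_zero]; exact one_pos)
  obtain ⟨L2, h2, e2⟩ := det_exp (oav b I φ) (orderOf_pos φ) hf2 (a := β) (b := 0) hβ
    (by rw [norm_zero]; exact one_pos)
  refine ⟨L1 + L2, ?_, ?_⟩
  · refine (h1.add h2).congr_fun fun m => ?_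
    rw [← (semi_pow S hI hφ hφI m).1, ← (semi_pow S hI hφ hφI m).2, zero_pow (Nat.succ_ne_zero m)]
    ring
  · rw [Complex.exp_add, e1, e2]
    simp only [add_zero, mul_zero, zero_smul]
    rw [← mul_inv]

end

section
variable {K F : Type} [Field K] [NumberField K] [Field F] [NumberField F] [Algebra K F]
  [IsGalois K F] {z : 𝓞 F} {C : Subgroup Gal(F/K)}
  {wo : HeightOneSpectrum (𝓞 K) → HeightOneSpectrum (𝓞 F)}

/-- the chosen primes above the primes of the quadratic field -/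
noncomputable def wx (C : Subgroup Gal(F/K)) (wo : HeightOneSpectrum (𝓞 K) → HeightOneSpectrum (𝓞 F))
    (u : HeightOneSpectrum (𝓞 (fixedField C))) : HeightOneSpectrum (𝓞 F) :=
  if und0 (fixedField C) (wo (und0 K u)) = u then wo (und0 K u) else wU (fixedField C) F u

lemma wx_und (u : HeightOneSpectrum (𝓞 (fixedField C))) : und0 (fixedField C) (wx C wo u) = u := by
  unfold wx
  split_ifs with h
  · exact h
  · exact wU_und _ u

lemma wx_first (hwo : ∀ v, und0 K (wo v) = v) (v : HeightOneSpectrum (𝓞 K)) :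
    wx C wo (und0 (fixedField C) (wo v)) = wo v := by
  unfold wx
  rw [und0_tower, hwo, if_pos rfl]

lemma av_oav {W : Type} [AddCommGroup W] [Module ℂ W] [FiniteDimensional ℂ W]
    {v : HeightOneSpectrum (𝓞 F)} {φ : Gal(F/K)}
    (hφ : ∀ x : 𝓞 F, φ • x - x ^ nK (und0 K v) ∈ v.asIdeal) (a : Gal(F/K) → Module.End ℂ W) (m : ℕ) :
    av K (fun g => LinearMap.trace ℂ W (a g)) v m =
      LinearMap.trace ℂ W (oav a (v.asIdeal.inertia Gal(F/K)) (φ ^ m)) := by
  rw [av_eq hφ]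
  unfold oav Pool.Agent.K7.H65.FP.av
  rw [map_smul, map_sum, smul_eq_mul]

variable {W : Type} [AddCommGroup W] [Module ℂ W] [FiniteDimensional ℂ W]
  {a b : Gal(F/K) → Module.End ℂ W}

/-- the coefficient at a prime of the base field -/
noncomputable def DD (C : Subgroup Gal(F/K)) (a : Gal(F/K) → Module.End ℂ W)
    (wo : HeightOneSpectrum (𝓞 K) → HeightOneSpectrum (𝓞 F)) (ι : RR →+* 𝓞 (fixedField C))
    (v : HeightOneSpectrum (𝓞 K)) (m : ℕ) : ℂ :=
  ∑ u : {u : HeightOneSpectrum (𝓞 (fixedField C)) // und0 K u = v},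
    if rd K u.1 ∣ m then (rd K u.1 : ℂ) *
      (av (fixedField C) (dn C fun g => LinearMap.trace ℂ W (a g)) (wx C wo u.1) (m / rd K u.1) *
        PN ι u.1.asIdeal ^ (m / rd K u.1)) else 0

variable {ι : RR →+* 𝓞 (fixedField C)}

lemma DD_three {v : HeightOneSpectrum (𝓞 K)} (h3 : (3 : 𝓞 K) ∈ v.asIdeal) {m : ℕ} (hm : 0 < m) :
    DD C a wo ι v m = 0 := by
  unfold DD
  refine Finset.sum_eq_zero fun u _ => ?_
  split_ifs with h
  · have h4 : (3 : 𝓞 (fixedField C)) ∈ u.1.asIdeal := by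
      rw [← Pool.Agent.K7.H70.SE.mem_und0 (K := K), u.2]
      exact h3
    have h5 : m / rd K u.1 ≠ 0 := by
      have := Nat.div_pos (Nat.le_of_dvd hm h) ((rdOk_all (K := K)).pos u.1)
      omega
    rw [PN_three h4, zero_pow h5, mul_zero, mul_zero]
  · rfl

variable (hz : z * z = -1 - z) (hC : ∀ σ, σ ∈ C ↔ fx z σ) {τ : Gal(F/K)} (hτ : ¬ fx z τ)
  (hwo : ∀ v, und0 K (wo v) = v) (S : Semi (fx z) a b)

include hz hC hτ hwo S in
theorem DD_split (hι : algebraMap (𝓞 (fixedField C)) (𝓞 F) (ι wR) = -1 - z)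
    (hsur : Function.Surjective ι) (hK : GoodG K) (hM : GoodG (fixedField C))
    {v : HeightOneSpectrum (𝓞 K)} (h3 : (3 : 𝓞 K) ∉ v.asIdeal) (hq : nK v % 3 = 1)
    (hqp : (nK v).Prime) {x : Ei} (hx : nr x = nK v) (hx2 : 2 * x.re - x.im = aV (E0 K) v)
    (hxW : (x.re : 𝓞 F) + x.im * z ∈ (wo v).asIdeal) {m : ℕ} (hm : 0 < m) :
    DD C a wo ι v m = av K (fun g => LinearMap.trace ℂ W (a g)) (wo v) m * toC x ^ m +
      av K (fun g => LinearMap.trace ℂ W (b g)) (wo v) m * toC' x ^ m := by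
  obtain ⟨W', hW'⟩ : ∃ W', wo v = W' := ⟨_, rfl⟩
  have hv : v = und0 K W' := by rw [← hW', hwo]
  have hwx : wx C wo (und0 (fixedField C) W') = W' := by
    rw [← hW']
    exact wx_first hwo v
  rw [hW'] at hxW ⊢
  subst hv
  have h3F : (3 : 𝓞 F) ∉ W'.asIdeal := fun h => h3 (Pool.Agent.K7.H70.SE.mem_und0.2 h)
  obtain ⟨hrd, hcard⟩ := rd_one hz hC hτ h3F hq
  set f : {u : HeightOneSpectrum (𝓞 (fixedField C)) // und0 K u = und0 K W'} → ℂ := fun u =>
    av (fixedField C) (dn C fun g => LinearMap.trace ℂ W (a g)) (wx C wo u.1) m with hf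
  let u₁ : {u : HeightOneSpectrum (𝓞 (fixedField C)) // und0 K u = und0 K W'} :=
    ⟨und0 (fixedField C) W', und0_tower (M := fixedField C) W'⟩
  obtain ⟨u₂, hu2, huniv⟩ : ∃ u₂, u₁ ≠ u₂ ∧ (Finset.univ : Finset {u : HeightOneSpectrum
      (𝓞 (fixedField C)) // und0 K u = und0 K W'}) = {u₁, u₂} := by
    rw [← Finset.card_univ, Finset.card_eq_two] at hcard
    obtain ⟨p, r, hpr, hu⟩ := hcard
    have h1 : u₁ ∈ (Finset.univ : Finset {u : HeightOneSpectrum
      (𝓞 (fixedField C)) // und0 K u = und0 K W'}) := Finset.mem_univ _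
    rw [hu, Finset.mem_insert, Finset.mem_singleton] at h1
    rcases h1 with h1 | h1
    · exact ⟨r, by rw [h1]; exact hpr, by rw [h1, hu]⟩
    · exact ⟨p, by rw [h1]; exact hpr.symm, by rw [h1, hu, Finset.pair_comm]⟩
  have hD : DD C a wo ι (und0 K W') m = f u₁ * PN ι u₁.1.asIdeal ^ m +
      f u₂ * PN ι u₂.1.asIdeal ^ m := by
    unfold DD
    rw [Finset.sum_congr rfl (g := fun u => f u * PN ι u.1.asIdeal ^ m) (fun u _ => by
      rw [hrd u, if_pos (one_dvd _), Nat.div_one, Nat.cast_one, one_mul]), huniv,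
      Finset.sum_pair hu2]
  have hsum : f u₁ + f u₂ = av K (fun g => LinearMap.trace ℂ (W × W) (S.rep g⁻¹)) W' m := by
    rw [← sum_av S hC hτ (wx_und (wo := wo)) W' hm, ← Finset.sum_pair hu2, ← huniv]
    exact Finset.sum_congr rfl fun u _ => by
      rw [hrd u, if_pos (one_dvd _), Nat.div_one, Nat.cast_one, one_mul]
  have hfr : ∀ g : Gal(F/K), Fr K W' (nK (und0 K W') ^ m) g → fx z g := fun g hg =>
    (fr_fx hz h3F hg).1 ((pow_mod m).1 hq)
  have hN : nK (und0 (fixedField C) W') = nK (und0 K W') := by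
    have h1 := (rdOk_all (K := K) (M := fixedField C)).norm (und0 (fixedField C) W')
    have h2 : rd K (und0 (fixedField C) W') = 1 := hrd u₁
    rw [h1, h2, pow_one, und0_tower]
  have hf1 : f u₁ = av K (fun g => LinearMap.trace ℂ W (a g)) W' m := by
    show av (fixedField C) (dn C fun g => LinearMap.trace ℂ W (a g))
      (wx C wo (und0 (fixedField C) W')) m = _
    rw [hwx]
    exact av_dn hN fun g hg => (hC g).2 (hfr g hg)
  have hadd : av K (fun g => LinearMap.trace ℂ (W × W) (S.rep g⁻¹)) W' m =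
      av K (fun g => LinearMap.trace ℂ W (a g)) W' m +
        av K (fun g => LinearMap.trace ℂ W (b g)) W' m := by
    unfold av
    rw [← mul_add, ← Finset.sum_add_distrib]
    congr 1
    refine Finset.sum_congr rfl fun g _ => ?_
    show LinearMap.trace ℂ (W × W) (S.rep (g.1)⁻¹) = _
    rw [Semi.rep_apply, inv_inv, trace_opP_pos (hfr g.1 g.2)]
  have hf2 : f u₂ = av K (fun g => LinearMap.trace ℂ W (b g)) W' m := by
    rw [hadd, hf1] at hsum
    exact add_left_cancel hsum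
  -- the values of the Hecke character
  have hor : ∀ u : {u : HeightOneSpectrum (𝓞 (fixedField C)) // und0 K u = und0 K W'},
      PN ι u.1.asIdeal = toC x ∨ PN ι u.1.asIdeal = toC' x := by
    intro u
    have h3u : (3 : 𝓞 (fixedField C)) ∉ u.1.asIdeal := fun h => h3 (by
      rw [← u.2]
      exact Pool.Agent.K7.H70.SE.mem_und0.2 h)
    refine PN_split hK hM h3u (hrd u) ?_ ?_
    · rw [u.2]; exact hx
    · rw [u.2]; exact hx2
  have hqW : ((nK (und0 K W') : ℕ) : 𝓞 F) ∈ W'.asIdeal := by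
    have h1 : ((nK (und0 K W') : ℕ) : 𝓞 K) ∈ (und0 K W').asIdeal := by
      have h2 := Ideal.absNorm_mem (und0 K W').asIdeal
      exact h2
    rwa [und_nat (M := K)] at h1
  have hp1 : PN ι u₁.1.asIdeal = toC x := PN_first hz hι h3F hqp hN hqW hx hxW (hor u₁)
  have hp2 : PN ι u₂.1.asIdeal = toC' x := by
    refine (hor u₂).resolve_left fun h => hu2 ?_
    have hN2 : nK u₂.1 = nK (und0 K W') := by
      have h1 := (rdOk_all (K := K) (M := fixedField C)).norm u₂.1
      rw [h1, hrd u₂, pow_one, u₂.2]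
    have h31 : (3 : 𝓞 (fixedField C)) ∉ u₁.1.asIdeal := fun h => h3 (by
      rw [← u₁.2]
      exact Pool.Agent.K7.H70.SE.mem_und0.2 h)
    have h32 : (3 : 𝓞 (fixedField C)) ∉ u₂.1.asIdeal := fun h => h3 (by
      rw [← u₂.2]
      exact Pool.Agent.K7.H70.SE.mem_und0.2 h)
    obtain ⟨y, hy1, hy2⟩ := PN_gen (ι := ι) h31 (by
      show (nK (und0 (fixedField C) W')).Prime
      rw [hN]
      exact hqp)
    obtain ⟨y', hy1', hy2'⟩ := PN_gen (ι := ι) h32 (by rw [hN2]; exact hqp)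
    have hyy : y = y' := Subtype.ext (by rw [hy1, hy1', hp1, h])
    apply Subtype.ext
    apply HeightOneSpectrum.ext
    ext t
    obtain ⟨r, rfl⟩ := hsur t
    rw [hy2, hy2', hyy]
  rw [hD, hf1, hf2, hp1, hp2]

include hz hC hτ S in
theorem DD_inert (hK : GoodG K) (hM : GoodG (fixedField C))
    {v : HeightOneSpectrum (𝓞 K)} (hwo : und0 K (wo v) = v) (h3 : (3 : 𝓞 K) ∉ v.asIdeal)
    (hq : nK v % 3 = 2) {m : ℕ} (hm : 0 < m) :
    DD C a wo ι v m = (if 2 ∣ m then (-(nK v : ℂ)) ^ (m / 2) else 0) *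
      av K (fun g => LinearMap.trace ℂ (W × W) (S.rep g⁻¹)) (wo v) m := by
  obtain ⟨W', hW'⟩ : ∃ W', wo v = W' := ⟨_, rfl⟩
  have hv : v = und0 K W' := by rw [← hW', hwo]
  rw [hW']
  subst hv
  have h3F : (3 : 𝓞 F) ∉ W'.asIdeal := fun h => h3 (Pool.Agent.K7.H70.SE.mem_und0.2 h)
  have hrd := rd_two hz hC hτ h3F hq
  rw [← sum_av S hC hτ (wx_und (wo := wo)) W' hm]
  unfold DD
  rw [Finset.mul_sum]
  refine Finset.sum_congr rfl fun u _ => ?_
  have h3u : (3 : 𝓞 (fixedField C)) ∉ u.1.asIdeal := fun h => h3 (by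
    rw [← u.2]
    exact Pool.Agent.K7.H70.SE.mem_und0.2 h)
  have hPN := PN_inert (ι := ι) hK hM h3u (by rw [u.2]; exact hq) (hrd u)
  rw [hrd u, hPN, u.2]
  by_cases h : 2 ∣ m
  · rw [if_pos h, if_pos h, if_pos h]
    ring
  · rw [if_neg h, if_neg h, if_neg h, mul_zero]

end

end Pool.Agent.H508.R
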