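import Pool.Agent.H508.R.A5

/-!
# The Euler product over the base field
-/

set_option autoImplicit false
set_option linter.unusedSectionVars false
set_option linter.style.haveILetI false

open Complex NumberField IsDedekindDomain

namespace Pool.Agent.H508.R

open Pool.Agent.K7.H70.EQ (HH avg frob_conj avg_pow avg_fin det_exp)
open Pool.Agent.K7.H70.SE (GoodG und0_tower exists_above ps rt rd RdOk lt rt_a rt_spec rt_lt)
open Pool.Agent.Y696 (nK und0 card_nm aV_inert eis om bel mem_bel deg_base exists_prim psi_prim E0)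
open Pool.Agent.Y688 (RR wR w wR_coe)
open Pool.Agent.R430 (PN PN_prime PN_three PN_good PN_sq iE tE tR)
open Pool.Agent.W192.HK (sp)
open Pool.Agent.W189.NF (aV eV)
open Pool.Agent.K7.H70.AW
open Pool.Agent.K7.H65.FP (Semi opP opP_pos opP_neg trace_opP_pos trace_opP_neg fx fx_one fx_mul
  z_case z_ne fx_inertia fx_frob toC' toC'_apply toC_add toC_mul prodMap_pow prodMap_inj card_mod3)
open Pool.Agent.Y692.QS (toC Ei nr toC_normSq)
open IntermediateField (fixedField subgroupEquivAlgEquiv)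
open Pool.Agent.H921R2.TatePole (two_le_nm)
open Pool.Agent.H508.D
open scoped Classical

section
variable {K F : Type} [Field K] [NumberField K] [Field F] [NumberField F] [Algebra K F]
  [IsGalois K F] {z : 𝓞 F} {C : Subgroup Gal(F/K)}
  {wo : HeightOneSpectrum (𝓞 K) → HeightOneSpectrum (𝓞 F)}
  {W : Type} [AddCommGroup W] [Module ℂ W] [FiniteDimensional ℂ W]
  {a b : Gal(F/K) → Module.End ℂ W} {ι : RR →+* 𝓞 (fixedField C)}

/-- the terms over the base field -/
noncomputable def tt (C : Subgroup Gal(F/K)) (a : Gal(F/K) → Module.End ℂ W)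
    (wo : HeightOneSpectrum (𝓞 K) → HeightOneSpectrum (𝓞 F)) (ι : RR →+* 𝓞 (fixedField C)) (s : ℂ)
    (p : HeightOneSpectrum (𝓞 K) × ℕ) : ℂ :=
  DD C a wo ι p.1 (p.2 + 1) * ((nK p.1 : ℂ) ^ (-s)) ^ (p.2 + 1) / (p.2 + 1)

theorem tt_sum {s : ℂ} (hs : s ∈ HH) : HasSum (tt C a wo ι s)
    (LL (fixedField C) (PW ι) (wx C wo) (dn C fun g => LinearMap.trace ℂ W (a g)) s) := by
  obtain ⟨χ, hχ⟩ : ∃ χ, χ = dn C fun g => LinearMap.trace ℂ W (a g) := ⟨_, rfl⟩
  rw [← hχ]
  have hq0 : ∀ (k : Type) [Field k] [NumberField k] (v : HeightOneSpectrum (𝓞 k)),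
      ((Real.sqrt (nK v) : ℝ) : ℂ) ≠ 0 := fun k _ _ v => by
    rw [Complex.ofReal_ne_zero]
    exact (Real.sqrt_pos.2 (by exact_mod_cast Nat.pos_of_ne_zero (nK_ne v))).ne'
  have hbd : ∀ (k : Type) [Field k] [NumberField k],
      BdP (k := k) (fun v j => ((Real.sqrt (nK v) : ℝ) : ℂ) ^ j) := fun k _ _ v j => by
    rw [norm_pow, Complex.norm_real, Real.norm_of_nonneg (Real.sqrt_nonneg _)]
    have : 0 ≤ Real.sqrt (nK v) ^ j := pow_nonneg (Real.sqrt_nonneg _) _
    linarith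
  have hnorm := (rdOk_all (K := K) (M := fixedField C)).norm
  have hsq : ∀ u : HeightOneSpectrum (𝓞 (fixedField C)), ((Real.sqrt (nK u) : ℝ) : ℂ) =
      ((Real.sqrt (nK (und0 K u)) : ℝ) : ℂ) ^ rd K u := fun u => by
    rw [hnorm u, Nat.cast_pow, ← Complex.ofReal_pow]
    congr 1
    rw [Real.sqrt_eq_iff_mul_self_eq (by positivity) (by positivity), ← mul_pow,
      Real.mul_self_sqrt (Nat.cast_nonneg _)]
  have h1 := Sum.t_sum K (fixedField C) (fun v j => ((Real.sqrt (nK v) : ℝ) : ℂ) ^ j)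
    (fun v j => ((Real.sqrt (nK v) : ℝ) : ℂ) ^ j) (hbd K) (hbd (fixedField C)) (fun u j => by
      show ((Real.sqrt (nK u) : ℝ) : ℂ) ^ j = _
      rw [hsq u, ← pow_mul]) (rdOk_all (K := K))
    (fun u j => av (fixedField C) χ (wx C wo u) j * PN ι u.asIdeal ^ j / ((Real.sqrt (nK u) : ℝ) : ℂ) ^ j)
    (∑ g : Gal(F/fixedField C), ‖χ g‖) (fun u j => by
      rw [norm_div, norm_mul, norm_pow, norm_pow, Complex.norm_real,
        Real.norm_of_nonneg (Real.sqrt_nonneg _)]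
      have hp : 0 < Real.sqrt (nK u) :=
        Real.sqrt_pos.2 (by exact_mod_cast Nat.pos_of_ne_zero (nK_ne u))
      rw [div_le_iff₀ (pow_pos hp _)]
      have h2 : ‖PN ι u.asIdeal‖ ≤ Real.sqrt (nK u) := Real.le_sqrt_of_sq_le PN_sq
      exact mul_le_mul (av_norm _ _ _) (pow_le_pow_left₀ (norm_nonneg _) h2 _)
        (pow_nonneg (norm_nonneg _) _) (Finset.sum_nonneg fun _ _ => norm_nonneg _)) s hs
  have e1 : (∑' p : HeightOneSpectrum (𝓞 (fixedField C)) × ℕ,
      (av (fixedField C) χ (wx C wo p.1) (p.2 + 1) * PN ι p.1.asIdeal ^ (p.2 + 1) /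
        ((Real.sqrt (nK p.1) : ℝ) : ℂ) ^ (p.2 + 1)) *
        ltP (fun v j => ((Real.sqrt (nK v) : ℝ) : ℂ) ^ j) p s) =
      LL (fixedField C) (PW ι) (wx C wo) χ s := by
    unfold LL
    refine tsum_congr fun p => ?_
    unfold ltP PW
    have := pow_ne_zero (p.2 + 1) (hq0 (fixedField C) p.1)
    field_simp
  rw [e1] at h1
  refine h1.congr_fun fun p => ?_
  unfold tt DD
  rw [← hχ, mul_div_assoc, Finset.sum_mul, Finset.sum_mul]
  obtain ⟨v, m⟩ := p
  refine Finset.sum_congr rfl fun u _ => ?_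
  show (if rd K u.1 ∣ m + 1 then _ else 0) * _ = (if rd K u.1 ∣ m + 1 then _ else 0) * _
  split_ifs with hd
  · obtain ⟨j, hj⟩ := hd
    have hpos := (rdOk_all (K := K) (M := fixedField C)).pos u.1
    have hdiv : (m + 1) / rd K u.1 = j := by rw [hj, Nat.mul_div_cancel_left _ hpos]
    unfold ltP
    simp only
    rw [hdiv, hsq u.1, u.2, ← pow_mul, ← hj]
    have := pow_ne_zero (m + 1) (hq0 K v)
    field_simp
  · rw [zero_mul, zero_mul]

/-- the local factor of two conjugate families of operators -/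
noncomputable def fac (a b : Gal(F/K) → Module.End ℂ W) (x : Ei)
    (v : HeightOneSpectrum (𝓞 K)) (w : HeightOneSpectrum (𝓞 F)) (φ : Gal(F/K)) (s : ℂ) : ℂ :=
  if (3 : 𝓞 K) ∈ v.asIdeal then 1 else if nK v % 3 = 1 then
    (LinearMap.det ((1 : Module.End ℂ W) - (toC x * (nK v : ℂ) ^ (-s)) •
      oav a (w.asIdeal.inertia Gal(F/K)) φ) *
      LinearMap.det ((1 : Module.End ℂ W) - (toC' x * (nK v : ℂ) ^ (-s)) •
        oav b (w.asIdeal.inertia Gal(F/K)) φ))⁻¹ else
    (LinearMap.det ((1 : Module.End ℂ W) + ((nK v : ℂ) ^ (1 - 2 * s)) •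
      (oav a (w.asIdeal.inertia Gal(F/K)) φ * oav b (w.asIdeal.inertia Gal(F/K)) φ)))⁻¹

variable (hz : z * z = -1 - z) (hC : ∀ σ, σ ∈ C ↔ fx z σ) {τ : Gal(F/K)} (hτ : ¬ fx z τ)
  (hwo : ∀ v, und0 K (wo v) = v) (S : Semi (fx z) a b)

include hz hC hτ hwo S in
/-- **the local factors** -/
theorem loc_all (hι : algebraMap (𝓞 (fixedField C)) (𝓞 F) (ι wR) = -1 - z)
    (hsur : Function.Surjective ι) (hK : GoodG K) (hM : GoodG (fixedField C))
    (hqp : ∀ v : HeightOneSpectrum (𝓞 K), (nK v).Prime) {x : Ei} {v : HeightOneSpectrum (𝓞 K)}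
    (hx : (3 : 𝓞 K) ∉ v.asIdeal → nK v % 3 = 1 → nr x = nK v ∧ 2 * x.re - x.im = aV (E0 K) v ∧
      (x.re : 𝓞 F) + x.im * z ∈ (wo v).asIdeal)
    {φ : Gal(F/K)} (hφ : ∀ y : 𝓞 F, φ • y - y ^ nK v ∈ (wo v).asIdeal) {s : ℂ} (hs : s ∈ HH) :
    ∃ L : ℂ, HasSum (fun m : ℕ => tt C a wo ι s (v, m)) L ∧
      Complex.exp L = fac a b x v (wo v) φ s := by
  have hn0 : (nK v : ℂ) ≠ 0 := Nat.cast_ne_zero.2 (nK_ne v)
  have hp := (wo v).isPrime
  have hφI := frob_conj (nK_ne v) hφ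
  have hφ' : ∀ y : 𝓞 F, φ • y - y ^ nK (und0 K (wo v)) ∈ (wo v).asIdeal := by rw [hwo]; exact hφ
  unfold fac
  by_cases h3 : (3 : 𝓞 K) ∈ v.asIdeal
  · rw [if_pos h3]
    refine ⟨0, ?_, Complex.exp_zero⟩
    have h1 : ∀ m : ℕ, tt C a wo ι s (v, m) = 0 := fun m => by
      unfold tt
      simp only
      rw [DD_three h3 (Nat.succ_pos m), zero_mul, zero_div]
    rw [funext h1]
    exact hasSum_zero
  rw [if_neg h3]
  have h3F : (3 : 𝓞 F) ∉ (wo v).asIdeal := fun h => h3 (by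
    rw [← hwo v]
    exact Pool.Agent.K7.H70.SE.mem_und0.2 h)
  have hI := fx_inertia (K := K) hz h3F
  have hra := rt_a hK v
  have hrm := (rt_spec hK h3).1
  have hrl := (rt_lt hK v hs).1
  set r := rt hK v with hr
  by_cases hq : nK v % 3 = 1
  · rw [if_pos hq]
    obtain ⟨hx1, hx2, hx3⟩ := hx h3 hq
    have e2 : r * (starRingEnd ℂ) r = toC x * toC' x := by
      rw [hrm, toC_mul, hx1]
      push_cast
      rfl
    have e3 : ‖toC x‖ = ‖r‖ := by
      have h1 : ‖toC x‖ ^ 2 = ‖r‖ ^ 2 := by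
        rw [← Complex.normSq_eq_norm_sq, ← Complex.normSq_eq_norm_sq]
        have h2 : ((Complex.normSq (toC x) : ℝ) : ℂ) = ((Complex.normSq r : ℝ) : ℂ) := by
          rw [← Complex.mul_conj, ← Complex.mul_conj]
          exact e2.symm
        exact_mod_cast h2
      exact (pow_left_inj₀ (norm_nonneg _) (norm_nonneg _) two_ne_zero).1 h1
    have hα : ‖toC x * (nK v : ℂ) ^ (-s)‖ < 1 := by
      rw [norm_mul, e3, ← norm_mul]
      exact hrl
    have hβ : ‖toC' x * (nK v : ℂ) ^ (-s)‖ < 1 := by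
      rw [norm_mul, toC'_apply, RCLike.norm_conj, e3, ← norm_mul]
      exact hrl
    have hfφ : fx z φ := (fx_frob hz h3F (hφ z)).1 hq
    obtain ⟨L, hL, he⟩ := loc_two S hI hfφ hφI hα hβ
    refine ⟨L, ?_, he⟩
    refine hL.congr_fun fun m => ?_
    unfold tt
    simp only
    rw [DD_split hz hC hτ hwo S hι hsur hK hM h3 hq (hqp v) hx1 hx2 hx3 (Nat.succ_pos m),
      av_oav hφ', av_oav hφ', mul_pow, mul_pow]
    show (LinearMap.trace ℂ W (oav a _ (φ ^ (m + 1))) * toC x ^ (m + 1) +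
      LinearMap.trace ℂ W (oav b _ (φ ^ (m + 1))) * toC' x ^ (m + 1)) * _ / _ = _
    ring
  · rw [if_neg hq]
    have hq2 : nK v % 3 = 2 := by
      have h5 := card_mod3 h3
      rw [card_nm] at h5
      exact h5.resolve_left hq
    have hnφ : ¬ fx z φ := (fx_frob hz h3F (hφ z)).2 hq2
    have ha0 : r + (starRingEnd ℂ) r = 0 := by
      rw [← hra, (aV_inert h3 hq2).1]
      simp
    have hcr : (starRingEnd ℂ) r = -r := by linear_combination ha0
    have hr2 : r ^ 2 = -(nK v : ℂ) := by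
      rw [hcr] at hrm
      linear_combination -hrm
    have hpow : (nK v : ℂ) ^ (1 - 2 * s) = (nK v : ℂ) * ((nK v : ℂ) ^ (-s)) ^ 2 := by
      rw [sub_eq_add_neg, Complex.cpow_add _ _ hn0, Complex.cpow_one, ← mul_neg,
        show (2 : ℂ) * -s = ((2 : ℕ) : ℂ) * -s by norm_num, Complex.cpow_nat_mul]
    have hlt : ‖-((nK v : ℂ) ^ (1 - 2 * s))‖ < 1 := by
      have : -((nK v : ℂ) ^ (1 - 2 * s)) = (r * (nK v : ℂ) ^ (-s)) ^ 2 := by
        rw [mul_pow, hr2, hpow]
        ring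
      rw [this, norm_pow]
      exact pow_lt_one₀ (norm_nonneg _) hrl two_ne_zero
    obtain ⟨L, hL, he⟩ := S.loc_neg hI hnφ hφI hlt
      (t := fun m => if 2 ∣ m + 1 then (-((nK v : ℂ) ^ (1 - 2 * s))) ^ ((m + 1) / 2) /
        (((m + 1) / 2 : ℕ) : ℂ) else 0)
      (fun k => if_neg (by omega)) (fun k => by
        show (if 2 ∣ 2 * k + 1 + 1 then _ else _) = _
        rw [if_pos (by omega), show (2 * k + 1 + 1) / 2 = k + 1 by omega]
        push_cast
        rfl)
    refine ⟨L, ?_, ?_⟩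
    · have h1 := hL.mul_left (2 : ℂ)⁻¹
      rw [inv_mul_cancel_left₀ two_ne_zero] at h1
      refine h1.congr_fun fun m => ?_
      unfold tt
      simp only
      rw [DD_inert hz hC hτ S hK hM (hwo v) h3 hq2 (Nat.succ_pos m), ← av_trace S.rep hφ' m,
        avg_pow _ _ hφI]
      by_cases hd : 2 ∣ m + 1
      · rw [if_pos hd, if_pos hd]
        obtain ⟨k, hk⟩ := hd
        have hk0 : (k : ℂ) ≠ 0 := by
          have : k ≠ 0 := by omega
          exact_mod_cast this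
        have hk2 : (m + 1) / 2 = k := by omega
        have hm1 : ((m : ℂ) + 1) = 2 * k := by exact_mod_cast hk
        rw [hk2, hm1, hpow, hk, pow_mul]
        field_simp
        ring
      · rw [if_neg hd, if_neg hd]
        ring
    · rw [he, neg_smul, sub_neg_eq_add]

include hz hC hτ hwo S in
/-- **the Euler product over the base field** -/
theorem euler_semi (hι : algebraMap (𝓞 (fixedField C)) (𝓞 F) (ι wR) = -1 - z)
    (hsur : Function.Surjective ι) (hK : GoodG K) (hM : GoodG (fixedField C))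
    (hqp : ∀ v : HeightOneSpectrum (𝓞 K), (nK v).Prime) {x : HeightOneSpectrum (𝓞 K) → Ei}
    (hx : ∀ v, (3 : 𝓞 K) ∉ v.asIdeal → nK v % 3 = 1 → nr (x v) = nK v ∧
      2 * (x v).re - (x v).im = aV (E0 K) v ∧ ((x v).re : 𝓞 F) + (x v).im * z ∈ (wo v).asIdeal)
    {φ : HeightOneSpectrum (𝓞 K) → Gal(F/K)}
    (hφ : ∀ v, ∀ y : 𝓞 F, φ v • y - y ^ nK v ∈ (wo v).asIdeal) {s : ℂ} (hs : s ∈ HH) :
    HasProd (fun v => fac a b (x v) v (wo v) (φ v) s)
      (Complex.exp (LL (fixedField C) (PW ι) (wx C wo)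
        (dn C fun g => LinearMap.trace ℂ W (a g)) s)) := by
  choose L hL he using fun v => loc_all hz hC hτ hwo S hι hsur hK hM hqp (hx v) (hφ v) hs
  have h1 := (tt_sum (C := C) (a := a) (wo := wo) (ι := ι) hs).prod_fiberwise hL
  have h2 := h1.cexp
  refine HasProd.congr_fun h2 fun v => ?_
  exact (he v).symm

end

end Pool.Agent.H508.R
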