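import Pool.Agent.H508.R.A6

/-!
# The function of two conjugate families of operators over the rational numbers
-/

set_option autoImplicit false
set_option linter.unusedSectionVars false
set_option linter.style.haveILetI false

open Complex NumberField IsDedekindDomain

namespace Pool.Agent.H508.R

open Pool.Agent.K7.H70.EQ (HH avg frob_conj avg_pow avg_fin det_exp)
open Pool.Agent.K7.H70.SE (GoodG und0_tower exists_above ps rt rd RdOk lt rt_a rt_spec rt_lt)
open Pool.Agent.Y696 (nK und0 card_nm aV_inert eis om bel mem_bel deg_base exists_prim psi_prim E0)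
open Pool.Agent.Y688 (RR wR w wR_coe HL)
open Pool.Agent.R430 (PN PN_prime PN_three PN_good PN_sq iE tE tR)
open Pool.Agent.W192.HK (sp)
open Pool.Agent.W189.NF (aV eV)
open Pool.Agent.K7.H70.AW
open Pool.Agent.K7.H70.TW (Fam)
open Pool.Agent.K7.H65.FP (Semi opP opP_pos opP_neg trace_opP_pos trace_opP_neg fx fx_one fx_mul
  z_case z_ne fx_inertia fx_frob toC' toC'_apply toC_add toC_mul prodMap_pow prodMap_inj card_mod3)
open Pool.Agent.Y692.QS (toC Ei nr toC_normSq)
open IntermediateField (fixedField subgroupEquivAlgEquiv)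
open Pool.Agent.H921R2.TatePole (two_le_nm)
open Pool.Agent.H508.D
open scoped Classical

section
variable {F L : Type} [Field F] [NumberField F] [IsGalois ℚ F] [Field L] [NumberField L]
  [Algebra F L] {z : 𝓞 F}

/-- the elements which fix the cube roots of unity -/
def CC (z : 𝓞 F) : Subgroup Gal(F/ℚ) := MulAction.stabilizer Gal(F/ℚ) z

lemma mem_CC (σ : Gal(F/ℚ)) : σ ∈ CC z ↔ fx z σ := Iff.rfl

lemma coe_z (hz : z * z = -1 - z) : (z : F) * z = -1 - z := by
  have := congrArg (fun t : 𝓞 F => (t : F)) hz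
  simpa using this

lemma sq_z (hz : z * z = -1 - z) : (2 * (z : F) + 1) ^ 2 = -3 := by
  linear_combination 4 * coe_z hz

lemma fx_iff (σ : Gal(F/ℚ)) : fx z σ ↔ σ (z : F) = z := by
  unfold fx
  constructor
  · intro h
    exact congrArg (fun t : 𝓞 F => (t : F)) h
  · intro h
    exact RingOfIntegers.ext h

lemma CC_eq : CC z = MulAction.stabilizer Gal(F/ℚ) (2 * (z : F) + 1) := by
  ext σ
  rw [mem_CC, fx_iff]
  show _ ↔ σ (2 * (z : F) + 1) = _
  rw [map_add, map_mul, map_one, map_ofNat]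
  constructor
  · intro h
    rw [h]
  · intro h
    have h2 : (2 : F) * σ (z : F) = 2 * z := by linear_combination h
    exact mul_left_cancel₀ two_ne_zero h2

lemma deg_CC (hz : z * z = -1 - z) : Module.finrank ℚ (fixedField (CC z)) = 2 := by
  rw [CC_eq]
  exact deg_two (sq_z hz)

lemma exists_not (hz : z * z = -1 - z) : ∃ τ : Gal(F/ℚ), ¬ fx z τ := by
  by_contra hcon
  push Not at hcon
  obtain ⟨q, hq⟩ := (IsGalois.mem_bot_iff_fixed (F := ℚ) (E := F) (2 * (z : F) + 1)).2 fun g => by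
    have h1 := (fx_iff g).1 (hcon g)
    rw [map_add, map_mul, map_one, map_ofNat, h1]
  have hq' : algebraMap ℚ F q = 2 * (z : F) + 1 := hq
  have h2 := sq_z hz
  rw [← hq'] at h2
  have h3 : q ^ 2 = -3 := by
    apply (algebraMap ℚ F).injective
    rw [map_pow, map_neg, map_ofNat]
    exact h2
  nlinarith [sq_nonneg q]

/-- the element of the quadratic field -/
lemma exists_zM : ∃ t : fixedField (CC z), algebraMap (fixedField (CC z)) F t = z :=
  ⟨⟨(z : F), fun σ => (fx_iff σ.1).1 ((mem_CC σ.1).1 σ.2)⟩, rfl⟩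

/-- the homomorphism from the Eisenstein integers -/
lemma exists_io (hz : z * z = -1 - z) : ∃ ι : RR →+* 𝓞 (fixedField (CC z)),
    algebraMap (𝓞 (fixedField (CC z))) (𝓞 F) (ι wR) = -1 - z := by
  obtain ⟨t, ht⟩ := exists_zM (z := z)
  have ht2 : t * t = -1 - t := by
    apply (algebraMap (fixedField (CC z)) F).injective
    rw [map_mul, map_sub, map_neg, map_one, ht, coe_z hz]
  have h3M : ∃ a : fixedField (CC z), a ^ 2 = -3 := ⟨2 * t + 1, by linear_combination 4 * ht2⟩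
  obtain ⟨ι⟩ := exists_iota' h3M
  have hw2 : wR * wR = -1 - wR := by
    apply Subtype.ext
    push_cast
    rw [wR_coe]
    linear_combination Pool.Agent.Y688.w_sq
  have h1 : ((ι wR : 𝓞 (fixedField (CC z))) : fixedField (CC z)) *
      ((ι wR : 𝓞 (fixedField (CC z))) : fixedField (CC z)) =
      -1 - ((ι wR : 𝓞 (fixedField (CC z))) : fixedField (CC z)) := by
    have h2 := congrArg (fun r : RR => ((ι r : 𝓞 (fixedField (CC z))) : fixedField (CC z))) hw2
    simp only [map_mul, map_sub, map_neg, map_one] at h2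
    simpa using h2
  have h2 : (((ι wR : 𝓞 (fixedField (CC z))) : fixedField (CC z)) - (-1 - t)) *
      (((ι wR : 𝓞 (fixedField (CC z))) : fixedField (CC z)) - t) = 0 := by
    linear_combination h1 - ht2
  rcases mul_eq_zero.1 h2 with h | h
  · refine ⟨ι, RingOfIntegers.ext ?_⟩
    show algebraMap (fixedField (CC z)) F ((ι wR : 𝓞 (fixedField (CC z))) : fixedField (CC z)) = _
    rw [sub_eq_zero.1 h, map_sub, map_neg, map_one, ht]
    push_cast
    rfl
  · refine ⟨ι.comp cR, RingOfIntegers.ext ?_⟩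
    show algebraMap (fixedField (CC z)) F
      ((ι (cR wR) : 𝓞 (fixedField (CC z))) : fixedField (CC z)) = _
    have h3 : ((ι (cR wR) : 𝓞 (fixedField (CC z))) : fixedField (CC z)) = -1 - t := by
      rw [cR_w, map_sub, map_neg, map_one]
      exact congrArg (fun y => -1 - y) (sub_eq_zero.1 h)
    rw [h3, map_sub, map_neg, map_one, ht]
    push_cast
    rfl

variable {W : Type} [AddCommGroup W] [Module ℂ W] [FiniteDimensional ℂ W]
  {a b : Gal(F/ℚ) → Module.End ℂ W} {wo : HeightOneSpectrum (𝓞 ℚ) → HeightOneSpectrum (𝓞 F)}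

/-- the representation of the Galois group over the quadratic field -/
noncomputable def rh (S : Semi (fx z) a b) : Representation ℂ Gal(F/fixedField (CC z)) W where
  toFun σ := a ((subgroupEquivAlgEquiv (CC z)).symm σ : Gal(F/ℚ))⁻¹
  map_one' := by
    rw [map_one]
    show a (1 : Gal(F/ℚ))⁻¹ = 1
    rw [inv_one, S.a1]
  map_mul' σ τ := by
    rw [map_mul]
    show a (((subgroupEquivAlgEquiv (CC z)).symm σ : Gal(F/ℚ)) *
      ((subgroupEquivAlgEquiv (CC z)).symm τ : Gal(F/ℚ)))⁻¹ = _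
    rw [mul_inv_rev, S.am, if_pos ((mem_CC _).1 ((CC z).inv_mem
      ((subgroupEquivAlgEquiv (CC z)).symm τ).2))]

lemma rh_inv (S : Semi (fx z) a b) (σ : Gal(F/fixedField (CC z))) :
    rh S σ⁻¹ = a ((subgroupEquivAlgEquiv (CC z)).symm σ : Gal(F/ℚ)) := by
  show a ((subgroupEquivAlgEquiv (CC z)).symm σ⁻¹ : Gal(F/ℚ))⁻¹ = _
  rw [map_inv, Subgroup.coe_inv, inv_inv]

/-- the value at one -/
noncomputable def yv (ι : RR →+* 𝓞 (fixedField (CC z)))
    (wo : HeightOneSpectrum (𝓞 ℚ) → HeightOneSpectrum (𝓞 F)) (θ : Gal(F/ℚ) → ℂ) : ℂ :=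
  vv (LL (fixedField (CC z)) (PW ι) (wx (CC z) wo) (dn (CC z) θ))

/-- **the continuation and the Euler product** -/
theorem semi_main (hf : Fam L) (hr : Rays L) (hQ : GoodG ℚ) (hz : z * z = -1 - z)
    {ι : RR →+* 𝓞 (fixedField (CC z))}
    (hι : algebraMap (𝓞 (fixedField (CC z))) (𝓞 F) (ι wR) = -1 - z)
    (hwo : ∀ v, und0 ℚ (wo v) = v) (S : Semi (fx z) a b) {x : HeightOneSpectrum (𝓞 ℚ) → Ei}
    (hx : ∀ v, (3 : 𝓞 ℚ) ∉ v.asIdeal → nK v % 3 = 1 → nr (x v) = nK v ∧
      2 * (x v).re - (x v).im = aV (E0 ℚ) v ∧ ((x v).re : 𝓞 F) + (x v).im * z ∈ (wo v).asIdeal)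
    {φ : HeightOneSpectrum (𝓞 ℚ) → Gal(F/ℚ)}
    (hφ : ∀ v, ∀ y : 𝓞 F, φ v • y - y ^ nK v ∈ (wo v).asIdeal) :
    ∃ Φ : ℂ → ℂ, MeromorphicOn Φ Set.univ ∧ AnalyticAt ℂ Φ 1 ∧
      (∀ s ∈ HH, HasProd (fun v => fac a b (x v) v (wo v) (φ v) s) (Φ s)) ∧ Φ 1 ≠ 0 ∧
      Φ 1 = yv ι wo (fun g => LinearMap.trace ℂ W (a g)) := by
  obtain ⟨τ, hτ⟩ := exists_not hz
  let _ : Algebra (fixedField (CC z)) L :=
    ((algebraMap F L).comp (algebraMap (fixedField (CC z)) F)).toAlgebra
  have hM : GoodG (fixedField (CC z)) := hf.good _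
  have hdeg := deg_CC hz
  obtain ⟨⟨R, hR, hR1⟩, -⟩ := main_K hf hr ι hdeg (wx_und (wo := wo)) (rh S)
  have hθ : (fun g => LinearMap.trace ℂ W (rh S g⁻¹)) = dn (CC z) fun g => LinearMap.trace ℂ W (a g) := by
    funext g
    rw [rh_inv]
    rfl
  rw [hθ] at hR
  refine ⟨R, hR.mero, hR.an, fun s hs => ?_, hR1, ?_⟩
  · rw [hR.eq s hs]
    exact euler_semi hz (fun σ => mem_CC σ) hτ hwo S hι (iota_surj ι hdeg) hQ hM nK_rat hx hφ hs
  · unfold yv
    rw [vv_eq hR]

/-- **the action of the automorphisms which fix the cube roots of unity** -/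
theorem semi_eqv (hf : Fam L) (hr : Rays L) (hz : z * z = -1 - z)
    {ι : RR →+* 𝓞 (fixedField (CC z))}
    (hι : algebraMap (𝓞 (fixedField (CC z))) (𝓞 F) (ι wR) = -1 - z) (S : Semi (fx z) a b)
    {L' : PeriodPair} {Ω : ℂ} (hL : HL L' Ω) {σ : ℂ ≃+* ℂ} (hw : σ w = w) {e : F →+* ℂ}
    (he : e z = (starRingEnd ℂ) w) {g : Gal(F/ℚ)} (hg : ∀ y, e (g y) = σ (e y)) :
    yv ι wo (fun g => σ (LinearMap.trace ℂ W (a g))) / Ω ^ Module.finrank ℂ W =
      σ (LinearMap.det (a g)) * σ (yv ι wo (fun g => LinearMap.trace ℂ W (a g)) /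
        Ω ^ Module.finrank ℂ W) := by
  have hcw : (starRingEnd ℂ) w = -1 - w := Pool.Agent.Y688.conj_w
  have hdeg := deg_CC hz
  obtain ⟨-, hmain⟩ := main_K hf hr ι hdeg (wx_und (wo := wo)) (rh S)
  have hgC : g ∈ CC z := by
    rw [mem_CC, fx_iff]
    apply e.injective
    rw [hg, he, hcw, map_sub, map_neg, map_one, hw]
  have he' : e (algebraMap (fixedField (CC z)) F ((ι wR : 𝓞 (fixedField (CC z))) :
      fixedField (CC z))) = w := by
    have h1 := congrArg (fun t : 𝓞 F => e (t : F)) hι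
    have h2 : e (algebraMap (fixedField (CC z)) F ((ι wR : 𝓞 (fixedField (CC z))) :
      fixedField (CC z))) = e (((-1 - z : 𝓞 F)) : F) := h1
    rw [h2]
    push_cast
    rw [map_sub, map_neg, map_one, he, hcw]
    ring
  have h1 := hmain L' Ω hL σ hw e he' (subgroupEquivAlgEquiv (CC z) ⟨g, hgC⟩) hg
  rw [rh_inv, MulEquiv.symm_apply_apply] at h1
  have hθ : (fun g => LinearMap.trace ℂ W (rh S g⁻¹)) = dn (CC z) fun g => LinearMap.trace ℂ W (a g) := by
    funext g
    rw [rh_inv]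
    rfl
  have hθ' : (fun g => σ (LinearMap.trace ℂ W (rh S g⁻¹))) =
      dn (CC z) fun g => σ (LinearMap.trace ℂ W (a g)) := by
    funext g
    rw [rh_inv]
    rfl
  rw [hθ, hθ'] at h1
  exact h1

end

end Pool.Agent.H508.R
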