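import Pool.Agent.H508.R.A8

/-!
# The periods of the abelian varieties
-/

set_option autoImplicit false
set_option linter.unusedSectionVars false
set_option linter.style.haveILetI false

open Complex NumberField IsDedekindDomain

namespace Pool.Agent.H508.R

open Pool.Agent.K7.H70.EQ (HH)
open Pool.Agent.K7.H70.SE (GoodG)
open Pool.Agent.Y696 (nK und0)
open Pool.Agent.Y688 (RR wR w wR_coe HL)
open Pool.Agent.K7.H70.AW
open Pool.Agent.K7.H70.TW (Fam)
open Pool.Agent.K7.H65.FP (fx toC' toC'_apply galE galE_pos galE_neg)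
open Pool.Agent.Y692.QS (toC Ei nr toC_normSq toC_apply hom hom_apply wC)
open IntermediateField (fixedField)
open Pool.Agent.H508.D
open scoped Classical Matrix

lemma wC_eq : wC = w := rfl

section unit
variable {G : Type} [Group G] {n : ℕ} {F : Type} [Field F] [NumberField F] {z : 𝓞 F}

/-- the units of the Eisenstein integers -/
lemma unit_norm {d d' : Ei} (h : d * d' = 1) : toC d * toC' d = 1 := by
  have h1 : ((nr d : ℤ) : ℝ) * ((nr d' : ℤ) : ℝ) = 1 := by
    rw [← toC_normSq, ← toC_normSq, ← map_mul, ← map_mul, h, map_one, map_one]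
  have h2 : (0 : ℝ) ≤ ((nr d : ℤ) : ℝ) := by rw [← toC_normSq]; exact Complex.normSq_nonneg _
  have h3 : nr d * nr d' = 1 := by exact_mod_cast h1
  have h4 : 0 ≤ nr d := by exact_mod_cast h2
  have h5 : nr d = 1 := Int.eq_one_of_mul_eq_one_right h4 h3
  rw [toC'_apply, Complex.mul_conj, toC_normSq, h5]
  norm_num

end unit

section
variable {F L : Type} [Field F] [NumberField F] [IsGalois ℚ F] [Field L] [NumberField L]
  [Algebra F L] {z : 𝓞 F} {n : ℕ} {c : Gal(F/ℚ) → Matrix (Fin n) (Fin n) Ei}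
  {wo : HeightOneSpectrum (𝓞 ℚ) → HeightOneSpectrum (𝓞 F)}

lemma Coc.unit (hc : Coc z c) (σ : Gal(F/ℚ)) :
    toC (c σ).det * toC' (c σ).det = 1 := by
  have h1 := hc.mul σ σ⁻¹
  rw [mul_inv_cancel, hc.one] at h1
  have h2 := congrArg Matrix.det h1
  rw [Matrix.det_one, Matrix.det_mul] at h2
  exact unit_norm h2.symm

/-- a basis of the Lie algebra -/
structure LieB (hz : (z : F) * z = -1 - z) (c : Gal(F/ℚ) → Matrix (Fin n) (Fin n) Ei)
    (B : Matrix (Fin n) (Fin n) F) : Prop where
  unit : IsUnit B.det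
  inv : ∀ σ : Gal(F/ℚ), (c σ).map (hom (z : F) hz) * B.map σ = B

/-- a basis of the invariant cycles -/
structure BetB (L' : PeriodPair) (hz : (z : F) * z = -1 - z)
    (c : Gal(F/ℚ) → Matrix (Fin n) (Fin n) Ei) (e : F →+* ℂ) (k : Gal(F/ℚ))
    (H : Matrix (Fin n) (Fin n) ℂ) : Prop where
  mem : ∀ i j, H i j ∈ L'.lattice
  unit : IsUnit H.det
  inv : (c k).map (e.comp (hom (z : F) hz)) * H.map (starRingEnd ℂ) = H

lemma e_hom (hz : (z : F) * z = -1 - z) {e : F →+* ℂ} (he : e z = (starRingEnd ℂ) w) (x : Ei) :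
    e (hom (z : F) hz x) = toC' x := by
  rw [hom_apply, map_add, map_mul, map_intCast, map_intCast, he, toC'_apply, toC_apply, wC_eq,
    map_add, map_mul, map_intCast, map_intCast]

lemma e_hom' (hz : (z : F) * z = -1 - z) {e : F →+* ℂ} (he : e z = w) (x : Ei) :
    e (hom (z : F) hz x) = toC x := by
  rw [hom_apply, map_add, map_mul, map_intCast, map_intCast, he, toC_apply, wC_eq]

lemma fix_RR' {σ : ℂ ≃+* ℂ} (hw : σ w = w) (r : RR) : σ (r : ℂ) = r := by
  obtain ⟨a, b, hab⟩ := (Pool.Agent.Y688.mem_RR (r : ℂ)).1 r.2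
  rw [hab, map_add, map_mul, map_intCast, map_intCast, hw]

lemma fix_toC {σ : ℂ ≃+* ℂ} (hw : σ w = w) (x : Ei) : σ (toC x) = toC x := by
  rw [toC_apply, wC_eq, map_add, map_mul, map_intCast, map_intCast, hw]

/-- the determinant of a matrix of periods -/
lemma det_lat {L' : PeriodPair} {Ω : ℂ} (hL : HL L' Ω) {H : Matrix (Fin n) (Fin n) ℂ}
    (hH : ∀ i j, H i j ∈ L'.lattice) : ∃ r : RR, H.det = Ω ^ n * r := by
  choose R hR using fun i j => (hL.mem (H i j)).1 (hH i j)
  have h1 : H = Ω • (Matrix.of fun i j => ((R i j : RR) : ℂ)) := by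
    ext i j
    rw [Matrix.smul_apply, Matrix.of_apply, smul_eq_mul, hR, mul_comm]
  have h2 : (Matrix.of fun i j => ((R i j : RR) : ℂ)).det = (((Matrix.of R).det : RR) : ℂ) := by
    have := (RR.subtype.map_det (Matrix.of R)).symm
    exact this
  refine ⟨(Matrix.of R).det, ?_⟩
  rw [h1, Matrix.det_smul, Fintype.card_fin, h2]

/-- a number fixed by complex conjugation and by the automorphisms which fix the cube roots of unity
is rational -/
lemma rat_of {x : ℂ} (h1 : (starRingEnd ℂ) x = x) (h2 : ∀ σ : ℂ ≃+* ℂ, σ w = w → σ x = x) :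
    ∃ q : ℚ, (q : ℂ) = x := by
  refine fixed_rat fun σ => ?_
  rcases σ_w σ with h | h
  · exact h2 σ h
  · have h3 := h2 (cj.trans σ) (by
      show σ ((starRingEnd ℂ) w) = w
      rw [Pool.Agent.Y688.conj_w, map_sub, map_neg, map_one, h, Pool.Agent.Y688.conj_w]
      ring)
    have h4 : σ ((starRingEnd ℂ) x) = x := h3
    rwa [h1] at h4

/-- **the period relation**, for an embedding with `e z = conj w` -/
theorem period_A (hf : Fam L) (hr : Rays L) (hQ : GoodG ℚ) (hz : z * z = -1 - z)
    {ι : RR →+* 𝓞 (fixedField (CC z))}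
    (hι : algebraMap (𝓞 (fixedField (CC z))) (𝓞 F) (ι wR) = -1 - z)
    (hwo : ∀ v, und0 ℚ (wo v) = v) (hc : Coc z c) {x : HeightOneSpectrum (𝓞 ℚ) → Ei}
    (hx : Frd z wo x) {L' : PeriodPair} {Ω : ℂ} (hL : HL L' Ω) {e : F →+* ℂ}
    (he : e z = (starRingEnd ℂ) w) {k : Gal(F/ℚ)} (hk : ∀ y, e (k y) = (starRingEnd ℂ) (e y))
    {B : Matrix (Fin n) (Fin n) F} (hB : LieB (coe_z hz) c B) {H : Matrix (Fin n) (Fin n) ℂ}
    (hH : BetB L' (coe_z hz) c e k H) :
    ∃ q : ℚ, yt ι wo (fun σ => (c σ).map toC) = q * (H.det / (B.map e).det) := by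
  set y := yt ι wo (fun σ => (c σ).map toC) with hy
  have hS := hc.semiM hz
  have hBd : (B.map e).det = e B.det := (e.map_det B).symm
  have hδ0 : e B.det ≠ 0 := fun h => hB.unit.ne_zero ((map_eq_zero e).1 h)
  have hH0 : H.det ≠ 0 := hH.unit.ne_zero
  -- the automorphisms of the number field
  have hact : ∀ σ : Gal(F/ℚ), toC' (c σ).det * e (σ B.det) = e B.det := fun σ => by
    have h1 := congrArg Matrix.det (hB.inv σ)
    rw [Matrix.det_mul] at h1
    have h2 : ((c σ).map (hom (z : F) (coe_z hz))).det = hom (z : F) (coe_z hz) (c σ).det :=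
      ((hom (z : F) (coe_z hz)).map_det (c σ)).symm
    have h3 : (B.map σ).det = σ B.det := ((σ : F →+* F).map_det B).symm
    rw [h2, h3] at h1
    have h4 := congrArg e h1
    rw [map_mul, e_hom (coe_z hz) he] at h4
    exact h4
  have hHk : toC' (c k).det * (starRingEnd ℂ) H.det = H.det := by
    have h1 := congrArg Matrix.det hH.inv
    rw [Matrix.det_mul, det_map_conj] at h1
    have h2 : ((c k).map (e.comp (hom (z : F) (coe_z hz)))).det =
        e.comp (hom (z : F) (coe_z hz)) (c k).det :=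
      ((e.comp (hom (z : F) (coe_z hz))).map_det (c k)).symm
    rw [h2] at h1
    have h3 : e.comp (hom (z : F) (coe_z hz)) (c k).det = toC' (c k).det := e_hom _ he _
    rwa [h3] at h1
  obtain ⟨q, hq⟩ := rat_of (x := y * e B.det / H.det) (by
    have h1 : (starRingEnd ℂ) y = y := mat_conj hf hr hQ hz hι hwo hS hS (fun σ => by
      rw [Matrix.map_map]
      congr 1
      funext t
      rw [Function.comp_apply, toC'_apply, Complex.conj_conj]) (fun σ => by
      rw [Matrix.map_map]
      rfl) hx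
    have h2 := hact k
    rw [hk] at h2
    have hu0 : toC' (c k).det ≠ 0 := fun h0 => by
      have h5 := hc.unit k
      rw [h0, mul_zero] at h5
      exact zero_ne_one h5
    have hcH : (starRingEnd ℂ) H.det ≠ 0 := fun h0 => by
      rw [h0, mul_zero] at hHk
      exact hH0 hHk.symm
    rw [map_div₀, map_mul, h1, div_eq_div_iff hcH hH0]
    apply mul_left_cancel₀ hu0
    linear_combination y * H.det * h2 - y * e B.det * hHk) (fun σ hw => by
    obtain ⟨g, hg⟩ := exists_aut (K := ℚ) e ((σ : ℂ →+* ℂ).comp e) fun x => by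
      rw [eq_ratCast, map_ratCast, map_ratCast]
    have hg' : ∀ t, e (g t) = σ (e t) := fun t => (hg t).symm
    have h1 := mat_eqv (wo := wo) hf hr hz hι hS hL hw he hg'
    have h2 : (fun σ' : Gal(F/ℚ) => ((c σ').map toC).map σ) = fun σ' => (c σ').map toC := by
      funext σ'
      rw [Matrix.map_map]
      congr 1
      funext t
      exact fix_toC hw t
    rw [h2] at h1
    have h3 : ((c g).map toC).det = toC (c g).det := (toC.map_det (c g)).symm
    rw [h3, fix_toC hw] at h1
    have h4 := hact g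
    rw [hg'] at h4
    have h5 := hc.unit g
    obtain ⟨r, hr'⟩ := det_lat hL hH.mem
    have hΩ := hL.ne
    have hΩn : Ω ^ n ≠ 0 := pow_ne_zero _ hΩ
    have hr0 : (r : ℂ) ≠ 0 := fun h0 => hH0 (by rw [hr', h0, mul_zero])
    have e1 : y * e B.det / H.det = (y / Ω ^ n) * e B.det / r := by
      rw [hr']
      field_simp
    rw [e1, map_div₀, map_mul, fix_RR' hw]
    congr 1
    have h6 : y / Ω ^ n = toC (c g).det * σ (y / Ω ^ n) := h1
    have h7 : σ (e B.det) = toC (c g).det * e B.det := by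
      linear_combination toC (c g).det * h4 - σ (e B.det) * h5
    rw [h7]
    calc σ (y / Ω ^ n) * (toC (c g).det * e B.det) =
        (toC (c g).det * σ (y / Ω ^ n)) * e B.det := by ring
      _ = y / Ω ^ n * e B.det := by rw [← h6])
  refine ⟨q, ?_⟩
  rw [hBd, hq]
  field_simp

/-- **the period relation** -/
theorem period_all (hf : Fam L) (hr : Rays L) (hQ : GoodG ℚ) (hz : z * z = -1 - z)
    {ι : RR →+* 𝓞 (fixedField (CC z))}
    (hι : algebraMap (𝓞 (fixedField (CC z))) (𝓞 F) (ι wR) = -1 - z)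
    (hwo : ∀ v, und0 ℚ (wo v) = v) (hc : Coc z c) {x : HeightOneSpectrum (𝓞 ℚ) → Ei}
    (hx : Frd z wo x) {L' : PeriodPair} {Ω : ℂ} (hL : HL L' Ω) {e : F →+* ℂ}
    {k : Gal(F/ℚ)} (hk : ∀ y, e (k y) = (starRingEnd ℂ) (e y))
    {B : Matrix (Fin n) (Fin n) F} (hB : LieB (coe_z hz) c B) {H : Matrix (Fin n) (Fin n) ℂ}
    (hH : BetB L' (coe_z hz) c e k H) :
    ∃ q : ℚ, yt ι wo (fun σ => (c σ).map toC) = q * (H.det / (B.map e).det) := by
  have hor : e (z : F) = w ∨ e (z : F) = (starRingEnd ℂ) w := by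
    have h1 : (e (z : F) - w) * (e (z : F) - (starRingEnd ℂ) w) = 0 := by
      have h2 := congrArg e (coe_z hz)
      rw [map_mul, map_sub, map_neg, map_one] at h2
      rw [Pool.Agent.Y688.conj_w]
      linear_combination h2 - Pool.Agent.Y688.w_sq
    rcases mul_eq_zero.1 h1 with h | h
    · exact Or.inl (sub_eq_zero.1 h)
    · exact Or.inr (sub_eq_zero.1 h)
  rcases hor with he | he
  · have hH' : BetB L' (coe_z hz) c ((starRingEnd ℂ).comp e) k (H.map (starRingEnd ℂ)) := by
      refine ⟨fun i j => lat_conj hL (hH.mem i j), ?_, ?_⟩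
      · rw [det_map_conj]
        exact hH.unit.map (starRingEnd ℂ)
      · have h1 := congrArg (fun M : Matrix (Fin n) (Fin n) ℂ => M.map (starRingEnd ℂ)) hH.inv
        simp only [Matrix.map_mul, Matrix.map_map] at h1
        rw [Matrix.map_map]
        exact h1
    obtain ⟨q, hq⟩ := period_A hf hr hQ hz hι hwo hc hx hL (e := (starRingEnd ℂ).comp e)
      (by rw [RingHom.comp_apply, he]) (k := k) (fun y => by
        rw [RingHom.comp_apply, RingHom.comp_apply, hk]) hB hH'
    refine ⟨q, ?_⟩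
    have hS := hc.semiM hz
    have h1 : (starRingEnd ℂ) (yt ι wo (fun σ => (c σ).map toC)) =
        yt ι wo (fun σ => (c σ).map toC) := mat_conj hf hr hQ hz hι hwo hS hS (fun σ => by
      rw [Matrix.map_map]
      congr 1
      funext t
      rw [Function.comp_apply, toC'_apply, Complex.conj_conj]) (fun σ => by
      rw [Matrix.map_map]
      rfl) hx
    have h2 := congrArg (starRingEnd ℂ) hq
    rw [h1, map_mul, map_ratCast, map_div₀, det_map_conj, Complex.conj_conj] at h2
    rw [h2]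
    congr 2
    rw [← det_map_conj, Matrix.map_map]
    congr 2
    funext t
    rw [Function.comp_apply, RingHom.comp_apply, Complex.conj_conj]
  · exact period_A hf hr hQ hz hι hwo hc hx hL he hk hB hH

end

end Pool.Agent.H508.R
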